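import Pool.Agent.Helper36.CWid.Ear

namespace Pool.Agent.Helper36.CWid

open Finset Classical

universe u v

variable {A : Type u} {B : Type v} [Fintype A] [Fintype B]

lemma class_bound {R : A → B → Prop} {D : ℕ} {ρA : A → A} {ρB : B → B} {As : Finset A}
    (hρ : ∀ a, ρA a ∈ As) {s : B} (hdeg : (As.filter (fun x => R x s)).card ≤ D)
    {ZA : Finset A} {ZB : Finset B}
    (hK1 : ∀ a ∈ ZA, ∀ b, b ∉ ZB → (R a b ↔ R (ρA a) (ρB b)))
    (hK2 : ∀ a, a ∉ ZA → ∀ b ∈ ZB, (R a b ↔ R (ρA a) (ρB b)))
    (hI1 : ∀ a ∈ ZA, ∀ b, b ∉ ZB → R a b → R (ρA a) s)
    (hI2 : ∀ a, a ∉ ZA → ∀ b ∈ ZB, R a b → R (ρA a) s) :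
    (clA R univ ZB ZA).card ≤ D + 1 ∧ (clB R univ ZA ZB).card ≤ 2 ^ D := by
  constructor
  · have hsub : clA R univ ZB ZA ⊆ insert ∅ ((As.filter (fun x => R x s)).image
        (fun x => (univ \ ZB).filter (fun b => R x (ρB b)))) := by
      intro Z hZ
      obtain ⟨a, ha, rfl⟩ := mem_image.mp hZ
      rw [mem_insert]
      by_cases hs : R (ρA a) s
      · right
        refine mem_image.mpr ⟨ρA a, mem_filter.mpr ⟨hρ a, hs⟩, ?_⟩
        apply filter_congr
        intro b hb
        rw [mem_sdiff] at hb
        exact (hK1 a ha b hb.2).symm
      · left
        apply filter_false_of_mem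
        intro b hb hR
        rw [mem_sdiff] at hb
        exact hs (hI1 a ha b hb.2 hR)
    have h1 := card_le_card hsub
    have h2 := card_insert_le ∅ ((As.filter (fun x => R x s)).image
        (fun x => (univ \ ZB).filter (fun b => R x (ρB b))))
    have h3 := card_image_le (s := As.filter (fun x => R x s))
      (f := fun x => (univ \ ZB).filter (fun b => R x (ρB b)))
    omega
  · have hsub : clB R univ ZA ZB ⊆ ((As.filter (fun x => R x s)).powerset).image
        (fun T => (univ \ ZA).filter (fun a => ρA a ∈ T)) := by
      intro Z hZ
      obtain ⟨b, hb, rfl⟩ := mem_image.mp hZ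
      refine mem_image.mpr ⟨(As.filter (fun x => R x s)).filter (fun x => R x (ρB b)), ?_, ?_⟩
      · rw [mem_powerset]
        exact filter_subset _ _
      · apply filter_congr
        intro a ha
        rw [mem_sdiff] at ha
        rw [mem_filter, mem_filter]
        constructor
        · intro h
          exact (hK2 a ha.2 b hb).mpr h.2
        · intro h
          exact ⟨⟨hρ a, hI2 a ha.2 b hb h⟩, (hK2 a ha.2 b hb).mp h⟩
    have h1 := card_le_card hsub
    have h2 := card_image_le (s := (As.filter (fun x => R x s)).powerset)
      (f := fun T => (univ \ ZA).filter (fun a => ρA a ∈ T))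
    rw [card_powerset] at h2
    have h3 : 2 ^ (As.filter (fun x => R x s)).card ≤ 2 ^ D := Nat.pow_le_pow_right (by norm_num) hdeg
    omega

lemma add_singles {R : A → B → Prop} {N : ℕ} {UA : Finset A} {UB : Finset B}
    (hD : Dec R N univ univ UA UB) (F : Finset A) (hdisj : Disjoint UA F)
    (hcls : ∀ F' ⊆ F, (clA R univ UB (UA ∪ F')).card ≤ N ∧ (clB R univ (UA ∪ F') UB).card ≤ N) :
    Dec R N univ univ (UA ∪ F) UB := by
  induction F using Finset.induction_on with
  | empty => rw [union_empty]; exact hD
  | insert x F hx ih =>
    have h1 := ih (disjoint_of_subset_right (subset_insert _ _) hdisj)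
      (fun F' hF' => hcls F' (hF'.trans (subset_insert _ _)))
    have e1 : UA ∪ insert x F = (UA ∪ F) ∪ {x} := by
      ext z; simp only [mem_union, mem_insert, mem_singleton]; tauto
    have e2 : UB = UB ∪ ∅ := by simp
    rw [e1, e2]
    have hc := hcls (insert x F) Subset.rfl
    rw [e1] at hc
    refine Dec.node _ _ _ _ h1 (Dec.leafA x) ?_ (by simp) ?_ ?_
    · rw [disjoint_singleton_right, mem_union, not_or]
      refine ⟨fun h => ?_, hx⟩
      exact disjoint_left.mp hdisj h (mem_insert_self _ _)
    · rw [← e2]; exact hc.1
    · rw [← e2]; exact hc.2

lemma assemble {R : A → B → Prop} {N D : ℕ} (hN : D + 1 ≤ N) (hN' : 2 ^ D ≤ N)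
    (hcyc : NoCyc R) {ρA : A → A} {ρB : B → B} {As : Finset A}
    (hρ : ∀ a, ρA a ∈ As) (hdeg : ∀ s, (As.filter (fun x => R x s)).card ≤ D)
    (same : A → B → Prop) (hK : ∀ a b, ¬ same a b → (R a b ↔ R (ρA a) (ρB b))) :
    ∀ (n : ℕ) (S : Finset B), S.card = n → S.Nonempty → ∀ (tA : A → B) (tB : B → B),
      (∀ a, tA a ∈ S) → (∀ b, tB b ∈ S) → (∀ a b, same a b → tA a = tB b) →
      (∀ a b, R a b → tA a ≠ tB b → R (ρA a) (tA a) ∧ R (ρA a) (tB b)) →
      (∀ s ∈ S, Dec R N univ univ (univ.filter (fun a => tA a = s))
        (univ.filter (fun b => tB b = s))) →
      Dec R N univ univ univ univ := by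
  intro n
  induction n with
  | zero =>
    intro S hS hne
    rw [card_eq_zero] at hS
    exact absurd hne (by rw [hS]; simp)
  | succ n ih =>
    intro S hS hne tA tB htA htB hsame hinv hdec
    obtain ⟨b0, hb0⟩ := hne
    by_cases h1 : n = 0
    · subst h1
      obtain ⟨z, hz⟩ := card_eq_one.mp hS
      have h2 := hdec z (by rw [hz]; simp)
      have e1 : (univ.filter (fun a => tA a = z)) = (univ : Finset A) := by
        apply filter_true_of_mem
        intro a _
        have := htA a
        rw [hz] at this
        simpa using this
      have e2 : (univ.filter (fun a => tB a = z)) = (univ : Finset B) := by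
        apply filter_true_of_mem
        intro a _
        have := htB a
        rw [hz] at this
        simpa using this
      rw [e1, e2] at h2
      exact h2
    · obtain ⟨b, hb, hbb0, b', hb', hbb', hear⟩ := ear hcyc S.card S rfl (by omega) b0 hb0
      have key : ∀ c ∈ S, (if c = b then b' else c) ∈ S.erase b := by
        intro c hc
        split_ifs with h
        · exact mem_erase.mpr ⟨hbb', hb'⟩
        · exact mem_erase.mpr ⟨h, hc⟩
      have hinv' : ∀ x y, R x y → (if tA x = b then b' else tA x) ≠ (if tB y = b then b' else tB y) →
          R (ρA x) (if tA x = b then b' else tA x) ∧ R (ρA x) (if tB y = b then b' else tB y) := by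
        intro x y hxy hne
        have hne' : tA x ≠ tB y := by
          intro h
          rw [h] at hne
          exact hne rfl
        obtain ⟨i1, i2⟩ := hinv x y hxy hne'
        constructor
        · split_ifs with h
          · rw [h] at i1
            exact hear _ i1 ⟨tB y, htB y, fun h' => hne' (h.trans h'.symm), i2⟩
          · exact i1
        · split_ifs with h
          · rw [h] at i2
            exact hear _ i2 ⟨tA x, htA x, fun h' => hne' (h'.trans h.symm), i1⟩
          · exact i2
      refine ih (S.erase b) (by rw [card_erase_of_mem hb]; omega) ⟨b', mem_erase.mpr ⟨hbb', hb'⟩⟩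
        (fun x => if tA x = b then b' else tA x) (fun y => if tB y = b then b' else tB y)
        (fun x => key _ (htA x)) (fun y => key _ (htB y))
        (fun x y hxy => by rw [hsame x y hxy]) hinv' ?_
      intro s hs
      obtain ⟨hsb, hsS⟩ := mem_erase.mp hs
      by_cases hsb' : s = b'
      · subst hsb'
        have e1 : univ.filter (fun x => (if tA x = b then s else tA x) = s) =
            univ.filter (fun x => tA x = s) ∪ univ.filter (fun x => tA x = b) := by
          ext x
          simp only [mem_filter, mem_univ, true_and, mem_union]
          split_ifs with h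
          · simp [h]
          · simp [h]
        have e2 : univ.filter (fun x => (if tB x = b then s else tB x) = s) =
            univ.filter (fun x => tB x = s) ∪ univ.filter (fun x => tB x = b) := by
          ext x
          simp only [mem_filter, mem_univ, true_and, mem_union]
          split_ifs with h
          · simp [h]
          · simp [h]
        obtain ⟨c1, c2⟩ := class_bound (ρA := ρA) (ρB := ρB) (D := D) hρ (hdeg s)
          (ZA := univ.filter (fun x => (if tA x = b then s else tA x) = s))
          (ZB := univ.filter (fun x => (if tB x = b then s else tB x) = s))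
          (by
            intro x hx y hy
            simp only [mem_filter, mem_univ, true_and] at hx hy
            apply hK
            intro hsm
            rw [hsame x y hsm] at hx
            exact hy hx)
          (by
            intro x hx y hy
            simp only [mem_filter, mem_univ, true_and] at hx hy
            apply hK
            intro hsm
            rw [hsame x y hsm] at hx
            exact hx hy)
          (by
            intro x hx y hy hR
            simp only [mem_filter, mem_univ, true_and] at hx hy
            have := hinv' x y hR (by rw [hx]; exact fun h => hy h.symm)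
            rw [hx] at this
            exact this.1)
          (by
            intro x hx y hy hR
            simp only [mem_filter, mem_univ, true_and] at hx hy
            have := hinv' x y hR (by rw [hy]; exact hx)
            rw [hy] at this
            exact this.2)
        rw [e1, e2] at c1 c2 ⊢
        refine Dec.node _ _ _ _ (hdec s hsS) (hdec b hb) ?_ ?_ (by omega) (by omega)
        · rw [disjoint_left]
          intro x hx hx'
          simp only [mem_filter, mem_univ, true_and] at hx hx'
          exact hsb (hx.symm.trans hx')
        · rw [disjoint_left]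
          intro x hx hx'
          simp only [mem_filter, mem_univ, true_and] at hx hx'
          exact hsb (hx.symm.trans hx')
      · have e1 : univ.filter (fun x => (if tA x = b then b' else tA x) = s) =
            univ.filter (fun x => tA x = s) := by
          apply filter_congr
          intro x _
          split_ifs with h
          · rw [h]
            exact ⟨fun h' => absurd h'.symm hsb', fun h' => absurd h'.symm hsb⟩
          · rfl
        have e2 : univ.filter (fun x => (if tB x = b then b' else tB x) = s) =
            univ.filter (fun x => tB x = s) := by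
          apply filter_congr
          intro x _
          split_ifs with h
          · rw [h]
            exact ⟨fun h' => absurd h'.symm hsb', fun h' => absurd h'.symm hsb⟩
          · rfl
        rw [e1, e2]
        exact hdec s hsS

end Pool.Agent.Helper36.CWid
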