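import Pool.Agent.Helper36.CWid.Rel

namespace Pool.Agent.Helper36.CWid

open Finset Classical

universe u v

variable {A : Type u} {B : Type v}

/-- A pair of vertex sets, one on each side, such that every outside vertex is homogeneous to the
set on the other side. -/
def IsBi (R : A → B → Prop) (MA : Finset A) (MB : Finset B) : Prop :=
  (∀ y, y ∉ MB → ∀ x ∈ MA, ∀ x' ∈ MA, R x y → R x' y) ∧
    (∀ x, x ∉ MA → ∀ y ∈ MB, ∀ y' ∈ MB, R x y → R x y')

lemma IsBi.flip {R : A → B → Prop} {MA : Finset A} {MB : Finset B} (h : IsBi R MA MB) :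
    IsBi (flip R) MB MA := ⟨fun y hy x hx x' hx' hr => h.2 y hy x hx x' hx' hr,
      fun y hy x hx x' hx' hr => h.1 y hy x hx x' hx' hr⟩

lemma low_exists (J : Finset ℕ) (s : ℕ) (h1 : 1 ≤ s) (h2 : s ≤ J.card) :
    ∃ p ∈ J, (J.filter (fun i => i ≤ p)).card = s := by
  have hex : ∃ n, s ≤ (J.filter (fun i => i ≤ n)).card := by
    refine ⟨J.sup id, ?_⟩
    have : J.filter (fun i => i ≤ J.sup id) = J := by
      apply filter_true_of_mem
      intro i hi
      exact le_sup (f := id) hi
    rw [this]
    exact h2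
  set n := Nat.find hex with hn
  have hn1 : s ≤ (J.filter (fun i => i ≤ n)).card := Nat.find_spec hex
  rcases Nat.eq_zero_or_pos n with h0 | hpos
  · have hsub : J.filter (fun i => i ≤ n) ⊆ {0} := by
      intro i hi
      have := (mem_filter.mp hi).2
      simp
      omega
    have h3 := card_le_card hsub
    simp only [card_singleton] at h3
    have h4 : (J.filter (fun i => i ≤ n)).card = s := by omega
    have h5 : (J.filter (fun i => i ≤ n)).Nonempty := by
      rw [← card_pos]; omega
    obtain ⟨i, hi⟩ := h5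
    have := (mem_filter.mp hi).2
    have h6 : i = n := by omega
    exact ⟨n, h6 ▸ (mem_filter.mp hi).1, h4⟩
  · obtain ⟨m, hm⟩ : ∃ m, n = m + 1 := ⟨n - 1, by omega⟩
    have hm' : ¬ s ≤ (J.filter (fun i => i ≤ m)).card := Nat.find_min hex (by omega)
    have hsub : J.filter (fun i => i ≤ n) ⊆ insert n (J.filter (fun i => i ≤ m)) := by
      intro i hi
      obtain ⟨hiJ, hi'⟩ := mem_filter.mp hi
      rw [mem_insert, mem_filter]
      by_cases h : i = n
      · left; exact h
      · right; exact ⟨hiJ, by omega⟩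
    have h3 := card_le_card hsub
    have h4 := card_insert_le n (J.filter (fun i => i ≤ m))
    have hmem : n ∈ J := by
      by_contra hcon
      have : J.filter (fun i => i ≤ n) ⊆ J.filter (fun i => i ≤ m) := by
        intro i hi
        obtain ⟨hiJ, hi'⟩ := mem_filter.mp hi
        rw [mem_filter]
        have : i ≠ n := by rintro rfl; exact hcon hiJ
        exact ⟨hiJ, by omega⟩
      have := card_le_card this
      omega
    exact ⟨n, hmem, by omega⟩

variable [Fintype A] [Fintype B]

noncomputable def midA (R : A → B → Prop) (b : ℕ → B) (p q : ℕ) : Finset A :=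
  univ.filter (fun x => R x (b q) ∧ ¬ R x (b p))

noncomputable def midB (R : A → B → Prop) (b : ℕ → B) (p q : ℕ) : Finset B :=
  univ.filter (fun y => (∀ x, R x (b p) → R x y) ∧ (∀ x, R x y → R x (b q)))

lemma mid_isBi {R : A → B → Prop} {s : ℕ} {I : Finset ℕ} {a : ℕ → A} {b : ℕ → B}
    (hE : NoE s R) (hE' : NoE s (flip R)) (h : Clean R I a b) (hs : 1 ≤ s) {p q : ℕ}
    (hp : p ∈ I) (hq : q ∈ I) (hpq : p < q) (hsp : s ≤ (I.filter (fun i => i ≤ p)).card)
    (hsq : s ≤ (I.filter (fun i => q < i)).card) :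
    IsBi R (midA R b p q) (midB R b p q) := by
  constructor
  · intro y hy x hx x' hx' hxy
    by_contra hx'y
    apply hy
    simp only [midA, mem_filter, mem_univ, true_and] at hx hx'
    have hIne : I.Nonempty := ⟨p, hp⟩
    set i0 := I.min' hIne with hi0
    set i1 := I.max' hIne with hi1
    have hi0I : i0 ∈ I := min'_mem _ _
    have hi1I : i1 ∈ I := max'_mem _ _
    have hqi1 : q < i1 := by
      have : (I.filter (fun i => q < i)).Nonempty := by rw [← card_pos]; omega
      obtain ⟨i, hi⟩ := this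
      obtain ⟨hiI, hi'⟩ := mem_filter.mp hi
      exact lt_of_lt_of_le hi' (le_max' _ _ hiI)
    have hcA : ((I.filter (fun i => q < i)).image a).card = (I.filter (fun i => q < i)).card :=
      card_image_of_injOn (h.hg.injA.mono (by
        intro k hk; exact (mem_filter.mp (mem_coe.mp hk)).1))
    have hcB : ((I.filter (fun i => i ≤ p)).image b).card = (I.filter (fun i => i ≤ p)).card :=
      card_image_of_injOn (h.hg.injB.mono (by
        intro k hk; exact (mem_filter.mp (mem_coe.mp hk)).1))
    have hlow : ∀ i ∈ I, q < i → ¬ R (a i) y := by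
      intro i hi hqi hR
      have := hE (a i0) (a i) x' y (b q) ((I.filter (fun i => i ≤ p)).image b)
        (h.downA y i0 hi0I i hi (min'_le _ _ hi) hR) ((h.hg i0 hi0I q hq).mpr (min'_le _ _ hq))
        hR (fun hh => by have := (h.hg i hi q hq).mp hh; omega) hx'.1 hx'y (by
          intro z hz
          obtain ⟨j, hj, rfl⟩ := mem_image.mp hz
          obtain ⟨hjI, hjp⟩ := mem_filter.mp hj
          refine ⟨(h.hg i0 hi0I j hjI).mpr (min'_le _ _ hjI), fun hh => ?_, fun hh => ?_⟩
          · have := (h.hg i hi j hjI).mp hh; omega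
          · exact hx'.2 (h.upB x' j hjI p hp hjp hh))
      rw [hcB] at this
      omega
    have hup : ∀ x'', R x'' (b p) → R x'' y := by
      intro x'' hx''
      by_contra hcon
      have := hE' (b i1) y (b p) x x'' ((I.filter (fun i => q < i)).image a)
        (h.upB x q hq i1 hi1I (le_max' _ _ hq) hx.1) (h.upB x'' p hp i1 hi1I (le_max' _ _ hp) hx'')
        hxy hcon hx'' hx.2 (by
          intro z hz
          obtain ⟨j, hj, rfl⟩ := mem_image.mp hz
          obtain ⟨hjI, hjp⟩ := mem_filter.mp hj
          refine ⟨(h.hg j hjI i1 hi1I).mpr (le_max' _ _ hjI), hlow j hjI hjp, fun hh => ?_⟩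
          have := (h.hg j hjI p hp).mp hh; omega)
      rw [hcA] at this
      omega
    simp only [midB, mem_filter, mem_univ, true_and]
    refine ⟨hup, ?_⟩
    intro x'' hx''
    by_contra hcon
    by_cases hc : R x'' (b i1)
    · have := hE' (b i1) y (b q) x'' x' ((I.filter (fun i => q < i)).image a)
        hc (h.upB x' q hq i1 hi1I (le_max' _ _ hq) hx'.1)
        hx'' hx'y hx'.1 hcon (by
          intro z hz
          obtain ⟨j, hj, rfl⟩ := mem_image.mp hz
          obtain ⟨hjI, hjp⟩ := mem_filter.mp hj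
          refine ⟨(h.hg j hjI i1 hi1I).mpr (le_max' _ _ hjI), hlow j hjI hjp, fun hh => ?_⟩
          have := (h.hg j hjI q hq).mp hh; omega)
      rw [hcA] at this
      omega
    · have := hE (a i0) x'' (a i1) y (b i1) ((I.filter (fun i => i ≤ p)).image b)
        (hup _ ((h.hg i0 hi0I p hp).mpr (min'_le _ _ hp)))
        ((h.hg i0 hi0I i1 hi1I).mpr (min'_le _ _ hi1I))
        hx'' hc ((h.hg i1 hi1I i1 hi1I).mpr le_rfl) (hlow i1 hi1I hqi1) (by
          intro z hz
          obtain ⟨j, hj, rfl⟩ := mem_image.mp hz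
          obtain ⟨hjI, hjp⟩ := mem_filter.mp hj
          refine ⟨(h.hg i0 hi0I j hjI).mpr (min'_le _ _ hjI), fun hh => ?_, fun hh => ?_⟩
          · exact hc (h.upB x'' j hjI i1 hi1I (le_max' _ _ hjI) hh)
          · have := (h.hg i1 hi1I j hjI).mp hh; omega)
      rw [hcB] at this
      omega
  · intro x hx y hy y' hy' hxy
    simp only [midA, midB, mem_filter, mem_univ, true_and] at hx hy hy'
    have h1 := hy.2 x hxy
    have h2 : R x (b p) := by
      by_contra hcon
      exact hx ⟨h1, hcon⟩
    exact hy'.1 x h2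

/-- A half graph of length at least `6 s + 4` yields a proper bimodule containing at least
four of its levels. -/
lemma bimod_of_hg {R : A → B → Prop} {s : ℕ} {I : Finset ℕ} {a : ℕ → A} {b : ℕ → B}
    (h6 : NoC6 R) (hE : NoE s R) (hE' : NoE s (flip R)) (hs : 1 ≤ s) (h : HG R I a b)
    (hI : 6 * s + 4 ≤ I.card) :
    ∃ MA : Finset A, ∃ MB : Finset B, IsBi R MA MB ∧ (∃ x, x ∉ MA) ∧
      ∃ J ⊆ I, 4 ≤ J.card ∧ (∀ i ∈ J, a i ∈ MA) ∧ (∀ i ∈ J, b i ∈ MB) := by
  obtain ⟨I', hI', hcl, hcard⟩ := clean_exists h6 hE hE' h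
  obtain ⟨p, hp, hpc⟩ := low_exists I' s hs (by omega)
  obtain ⟨q, hq, hqc⟩ := low_exists I' (I'.card - s) (by omega) (by omega)
  have hqc' : (I'.filter (fun i => q < i)).card = s := by
    have h1 := card_filter_add_card_filter_not (s := I') (fun i => i ≤ q)
    have h2 : I'.filter (fun i => ¬ i ≤ q) = I'.filter (fun i => q < i) := by
      apply filter_congr
      intro i _
      exact not_le
    rw [h2] at h1
    omega
  have hpq : p < q := by
    by_contra hcon
    have hsub : I'.filter (fun i => i ≤ q) ⊆ I'.filter (fun i => i ≤ p) := by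
      intro i hi
      obtain ⟨h1, h2⟩ := mem_filter.mp hi
      exact mem_filter.mpr ⟨h1, by omega⟩
    have := card_le_card hsub
    omega
  refine ⟨midA R b p q, midB R b p q, mid_isBi hE hE' hcl hs hp hq hpq hpc.ge hqc'.ge,
    ⟨a p, ?_⟩, I'.filter (fun i => p < i ∧ i ≤ q), (filter_subset _ _).trans hI', ?_, ?_, ?_⟩
  · simp only [midA, mem_filter, mem_univ, true_and, not_and, not_not]
    intro _
    exact (hcl.hg p hp p hp).mpr le_rfl
  · have h1 : I' ⊆ I'.filter (fun i => p < i ∧ i ≤ q) ∪ (I'.filter (fun i => i ≤ p) ∪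
        I'.filter (fun i => q < i)) := by
      intro i hi
      simp only [mem_union, mem_filter]
      by_cases h1 : i ≤ p
      · right; left; exact ⟨hi, h1⟩
      · by_cases h2 : i ≤ q
        · left; exact ⟨hi, by omega, h2⟩
        · right; right; exact ⟨hi, by omega⟩
    have h2 := card_le_card h1
    have h3 := card_union_le (I'.filter (fun i => p < i ∧ i ≤ q)) (I'.filter (fun i => i ≤ p) ∪
        I'.filter (fun i => q < i))
    have h4 := card_union_le (I'.filter (fun i => i ≤ p)) (I'.filter (fun i => q < i))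
    omega
  · intro i hi
    obtain ⟨hiI, h1, h2⟩ := mem_filter.mp hi
    simp only [midA, mem_filter, mem_univ, true_and]
    refine ⟨(hcl.hg i hiI q hq).mpr h2, fun hh => ?_⟩
    have := (hcl.hg i hiI p hp).mp hh
    omega
  · intro i hi
    obtain ⟨hiI, h1, h2⟩ := mem_filter.mp hi
    simp only [midB, mem_filter, mem_univ, true_and]
    exact ⟨fun x => hcl.upB x p hp i hiI h1.le, fun x => hcl.upB x i hiI q hq h2⟩

end Pool.Agent.Helper36.CWid
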