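import Pool.Agent.Helper36.CWid.Deg

namespace Pool.Agent.Helper36.CWid

open Finset Classical

universe u v

variable {A : Type u} {B : Type v}

lemma card_image_le_card_image {α β γ : Type*} [DecidableEq β] [DecidableEq γ] {s : Finset α} {f : α → β} {g : α → γ}
    (h : ∀ x ∈ s, ∀ x' ∈ s, f x = f x' → g x = g x') : (s.image g).card ≤ (s.image f).card := by
  rcases s.eq_empty_or_nonempty with rfl | ⟨x0, hx0⟩
  · simp
  have hp : ∀ z : γ, ∃ x ∈ s, z ∈ s.image g → g x = z := by
    intro z
    by_cases hz : z ∈ s.image g
    · obtain ⟨x, hx, hxz⟩ := mem_image.mp hz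
      exact ⟨x, hx, fun _ => hxz⟩
    · exact ⟨x0, hx0, fun h => absurd h hz⟩
  choose p hps hp using hp
  apply card_le_card_of_injOn (fun z => f (p z))
  · intro z _
    exact mem_coe.mpr (mem_image_of_mem f (hps z))
  · intro z hz z' hz' hzz
    have := h _ (hps z) _ (hps z') hzz
    rw [hp z hz, hp z' hz'] at this
    exact this

/-- The traces of the `A`-vertices of a set on the outside of the set. -/
noncomputable def clA (R : A → B → Prop) (WB XB : Finset B) (XA : Finset A) : Finset (Finset B) :=
  XA.image (fun a => (WB \ XB).filter (fun b => R a b))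

/-- The traces of the `B`-vertices of a set on the outside of the set. -/
noncomputable def clB (R : A → B → Prop) (WA XA : Finset A) (XB : Finset B) : Finset (Finset A) :=
  XB.image (fun b => (WA \ XA).filter (fun a => R a b))

/-- Sets obtained from single vertices by disjoint unions such that every intermediate set has
few traces on its complement. -/
inductive Dec (R : A → B → Prop) (N : ℕ) (WA : Finset A) (WB : Finset B) :
    Finset A → Finset B → Prop
  | leafA (a : A) : Dec R N WA WB {a} ∅
  | leafB (b : B) : Dec R N WA WB ∅ {b}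
  | node (XA YA : Finset A) (XB YB : Finset B) : Dec R N WA WB XA XB → Dec R N WA WB YA YB →
      Disjoint XA YA → Disjoint XB YB →
      (clA R WB (XB ∪ YB) (XA ∪ YA)).card ≤ N → (clB R WA (XA ∪ YA) (XB ∪ YB)).card ≤ N →
      Dec R N WA WB (XA ∪ YA) (XB ∪ YB)

lemma Dec.flip {R : A → B → Prop} {N : ℕ} {WA : Finset A} {WB : Finset B} {XA : Finset A}
    {XB : Finset B} (h : Dec R N WA WB XA XB) : Dec (flip R) N WB WA XB XA := by
  induction h with
  | leafA a => exact Dec.leafB a
  | leafB b => exact Dec.leafA b
  | node XA YA XB YB _ _ h1 h2 h3 h4 ih1 ih2 => exact Dec.node _ _ _ _ ih1 ih2 h2 h1 h4 h3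

lemma Dec.map {A' B' : Type*} {R : A → B → Prop} {N : ℕ} (i : A' ↪ A) (j : B' ↪ B)
    {WA : Finset A'} {WB : Finset B'} {XA : Finset A'}
    {XB : Finset B'} (h : Dec (fun a b => R (i a) (j b)) N WA WB XA XB) :
    Dec R N (WA.map i) (WB.map j) (XA.map i) (XB.map j) := by
  induction h with
  | leafA a =>
    rw [map_singleton, map_empty]
    exact Dec.leafA _
  | leafB b =>
    rw [map_singleton, map_empty]
    exact Dec.leafB _
  | node XA YA XB YB _ _ h1 h2 h3 h4 ih1 ih2 =>
    rw [map_union, map_union]
    refine Dec.node _ _ _ _ ih1 ih2 ((disjoint_map i).mpr h1) ((disjoint_map j).mpr h2) ?_ ?_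
    · refine le_trans ?_ h3
      unfold clA
      rw [← map_union, ← map_union, ← Finset.map_sdiff]
      have : ((XA ∪ YA).map i).image (fun a => ((WB \ (XB ∪ YB)).map j).filter (fun b => R a b)) =
          (XA ∪ YA).image (fun a => ((WB \ (XB ∪ YB)).map j).filter (fun b => R (i a) b)) := by
        ext z
        simp only [mem_image, mem_map]
        constructor
        · rintro ⟨_, ⟨a, ha, rfl⟩, rfl⟩
          exact ⟨a, ha, rfl⟩
        · rintro ⟨a, ha, rfl⟩
          exact ⟨_, ⟨a, ha, rfl⟩, rfl⟩
      rw [this]
      apply card_image_le_card_image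
      intro x _ x' _ hxx
      simp only [Finset.ext_iff, mem_filter] at hxx
      ext z
      simp only [mem_filter, mem_map]
      constructor
      · rintro ⟨⟨b, hb, rfl⟩, hr⟩
        exact ⟨⟨b, hb, rfl⟩, ((hxx b).mp ⟨hb, hr⟩).2⟩
      · rintro ⟨⟨b, hb, rfl⟩, hr⟩
        exact ⟨⟨b, hb, rfl⟩, ((hxx b).mpr ⟨hb, hr⟩).2⟩
    · refine le_trans ?_ h4
      unfold clB
      rw [← map_union, ← map_union, ← Finset.map_sdiff]
      have : ((XB ∪ YB).map j).image (fun b => ((WA \ (XA ∪ YA)).map i).filter (fun a => R a b)) =
          (XB ∪ YB).image (fun b => ((WA \ (XA ∪ YA)).map i).filter (fun a => R a (j b))) := by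
        ext z
        simp only [mem_image, mem_map]
        constructor
        · rintro ⟨_, ⟨a, ha, rfl⟩, rfl⟩
          exact ⟨a, ha, rfl⟩
        · rintro ⟨a, ha, rfl⟩
          exact ⟨_, ⟨a, ha, rfl⟩, rfl⟩
      rw [this]
      apply card_image_le_card_image
      intro x _ x' _ hxx
      simp only [Finset.ext_iff, mem_filter] at hxx
      ext z
      simp only [mem_filter, mem_map]
      constructor
      · rintro ⟨⟨b, hb, rfl⟩, hr⟩
        exact ⟨⟨b, hb, rfl⟩, ((hxx b).mp ⟨hb, hr⟩).2⟩
      · rintro ⟨⟨b, hb, rfl⟩, hr⟩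
        exact ⟨⟨b, hb, rfl⟩, ((hxx b).mpr ⟨hb, hr⟩).2⟩

variable [Fintype A] [Fintype B]

lemma dec_of_bi {R : A → B → Prop} {N : ℕ} {MA : Finset A} {MB : Finset B} (hM : IsBi R MA MB)
    {XA : Finset A} {XB : Finset B} (h : Dec R N MA MB XA XB) (hA : XA ⊆ MA) (hB : XB ⊆ MB) :
    Dec R N univ univ XA XB := by
  induction h with
  | leafA a => exact Dec.leafA _
  | leafB b => exact Dec.leafB _
  | node XA YA XB YB _ _ h1 h2 h3 h4 ih1 ih2 =>
    refine Dec.node _ _ _ _ (ih1 (subset_union_left.trans hA) (subset_union_left.trans hB))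
      (ih2 (subset_union_right.trans hA) (subset_union_right.trans hB)) h1 h2 ?_ ?_
    · refine le_trans ?_ h3
      unfold clA
      apply card_image_le_card_image
      intro x hx x' hx' hxx
      simp only [Finset.ext_iff, mem_filter, mem_sdiff] at hxx
      ext z
      simp only [mem_filter, mem_sdiff, mem_univ, true_and]
      by_cases hz : z ∈ MB
      · have := hxx z
        tauto
      · have p1 := hM.1 z hz x (hA hx) x' (hA hx')
        have p2 := hM.1 z hz x' (hA hx') x (hA hx)
        tauto
    · refine le_trans ?_ h4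
      unfold clB
      apply card_image_le_card_image
      intro x hx x' hx' hxx
      simp only [Finset.ext_iff, mem_filter, mem_sdiff] at hxx
      ext z
      simp only [mem_filter, mem_sdiff, mem_univ, true_and]
      by_cases hz : z ∈ MA
      · have := hxx z
        tauto
      · have p1 := hM.2 z hz x (hB hx) x' (hB hx')
        have p2 := hM.2 z hz x' (hB hx') x (hB hx)
        tauto

/-- Add the twin `a'` of `a` to every set containing `a`. -/
noncomputable def hat (a a' : A) (X : Finset A) : Finset A := if a ∈ X then insert a' X else X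

omit [Fintype A] in
lemma mem_hat {a a' z : A} {X : Finset A} :
    z ∈ hat a a' X ↔ z ∈ X ∨ (z = a' ∧ a ∈ X) := by
  unfold hat
  split_ifs with h
  · rw [mem_insert]
    constructor
    · rintro (h1 | h1)
      · exact Or.inr ⟨h1, h⟩
      · exact Or.inl h1
    · rintro (h1 | h1)
      · exact Or.inr h1
      · exact Or.inl h1.1
  · constructor
    · intro h1; exact Or.inl h1
    · rintro (h1 | h1)
      · exact h1
      · exact absurd h1.2 h

lemma dec_twin {R : A → B → Prop} {N : ℕ} (hN : 1 ≤ N) {a a' : A} (hne : a ≠ a')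
    (ht : ∀ y, R a y ↔ R a' y) {XA : Finset A} {XB : Finset B}
    (h : Dec R N (univ.erase a') univ XA XB) (ha' : a' ∉ XA) :
    Dec R N univ univ (hat a a' XA) XB := by
  induction h with
  | leafA x =>
    unfold hat
    split_ifs with hx
    · rw [mem_singleton] at hx
      subst hx
      have e1 : insert a' ({a} : Finset A) = {a} ∪ {a'} := by
        ext z; simp only [mem_insert, mem_singleton, mem_union]; tauto
      have e2 : (∅ : Finset B) = ∅ ∪ ∅ := by simp
      rw [e1, e2]
      refine Dec.node _ _ _ _ (Dec.leafA _) (Dec.leafA _) (by simpa using hne) (by simp) ?_ ?_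
      · refine le_trans ?_ hN
        unfold clA
        rw [card_le_one]
        intro X hX Y hY
        simp only [mem_image, mem_union, mem_singleton] at hX hY
        obtain ⟨x, hx, rfl⟩ := hX
        obtain ⟨y, hy, rfl⟩ := hY
        apply filter_congr
        intro z _
        have := ht z
        rcases hx with rfl | rfl <;> rcases hy with rfl | rfl
        · exact Iff.rfl
        · exact this
        · exact this.symm
        · exact Iff.rfl
      · unfold clB
        simp
    · exact Dec.leafA _
  | leafB b =>
    unfold hat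
    rw [if_neg (by simp)]
    exact Dec.leafB _
  | node XA YA XB YB hX hY h1 h2 h3 h4 ih1 ih2 =>
    have hX' : a' ∉ XA := fun h => ha' (mem_union_left _ h)
    have hY' : a' ∉ YA := fun h => ha' (mem_union_right _ h)
    have i1 := ih1 hX'
    have i2 := ih2 hY'
    have hdis := disjoint_left.mp h1
    have hset : (hat a a' (XA ∪ YA)) =
        (hat a a' XA) ∪ (hat a a' YA) := by
      ext z
      rw [mem_union, mem_hat, mem_hat, mem_hat, mem_union, mem_union]
      constructor
      · rintro ((h | h) | ⟨h, h' | h'⟩)
        · exact Or.inl (Or.inl h)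
        · exact Or.inr (Or.inl h)
        · exact Or.inl (Or.inr ⟨h, h'⟩)
        · exact Or.inr (Or.inr ⟨h, h'⟩)
      · rintro ((h | h) | (h | h))
        · exact Or.inl (Or.inl h)
        · exact Or.inr ⟨h.1, Or.inl h.2⟩
        · exact Or.inl (Or.inr h)
        · exact Or.inr ⟨h.1, Or.inr h.2⟩
    rw [hset]
    refine Dec.node _ _ _ _ i1 i2 ?_ h2 ?_ ?_
    · rw [disjoint_left]
      intro z hz hz'
      rw [mem_hat] at hz hz'
      rcases hz with hz | hz <;> rcases hz' with hz' | hz'
      · exact hdis hz hz'
      · exact hX' (hz'.1 ▸ hz)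
      · exact hY' (hz.1 ▸ hz')
      · exact hdis hz.2 hz'.2
    · rw [← hset]
      refine le_trans ?_ h3
      unfold clA
      have hsub : (hat a a' (XA ∪ YA)).image
          (fun x => (univ \ (XB ∪ YB)).filter (fun b => R x b)) ⊆
          (XA ∪ YA).image (fun x => (univ \ (XB ∪ YB)).filter (fun b => R x b)) := by
        intro Z hZ
        obtain ⟨x, hx, rfl⟩ := mem_image.mp hZ
        rw [mem_hat] at hx
        rcases hx with hx | ⟨rfl, hx⟩
        · exact mem_image_of_mem _ hx
        · refine mem_image.mpr ⟨a, hx, ?_⟩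
          apply filter_congr
          intro z _
          exact ht z
      exact card_le_card hsub
    · rw [← hset]
      refine le_trans ?_ h4
      unfold clB
      apply card_image_le_card_image
      intro x hx x' hx' hxx
      have e : ∀ z, z ∉ XA ∪ YA → z ≠ a' → (R z x ↔ R z x') := by
        intro z hz hz'
        have := Finset.ext_iff.mp hxx z
        simp only [mem_filter, mem_sdiff, mem_erase, mem_univ, and_true] at this
        constructor
        · intro h
          exact (this.mp ⟨⟨hz', hz⟩, h⟩).2
        · intro h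
          exact (this.mpr ⟨⟨hz', hz⟩, h⟩).2
      apply filter_congr
      intro z hz
      rw [mem_sdiff, mem_hat, not_or] at hz
      by_cases hz' : z = a'
      · subst hz'
        rw [← ht x, ← ht x']
        exact e a (fun h => hz.2.2 ⟨rfl, h⟩) hne
      · exact e z hz.2.1 hz'

end Pool.Agent.Helper36.CWid
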