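import Mathlib

namespace Pool.Agent.Helper36.CWid

/-- The graph joining every vertex of label `i` to every vertex of label `j`. -/
def joinGraph {V : Type} {k : ℕ} (l : V → Fin k) (i j : Fin k) : SimpleGraph V :=
  SimpleGraph.fromRel (fun u v => l u = i ∧ l v = j)

/-- `Built k V G l`: the graph `G` on `V` with labels `l : V → Fin k` can be built from single
labelled vertices by disjoint unions, by joining every vertex of label `i` to every vertex of
label `j` (`i ≠ j`), and by renaming label `i` to label `j`, using the `k` labels only
(graphs are taken up to isomorphism). -/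
inductive Built (k : ℕ) : (V : Type) → SimpleGraph V → (V → Fin k) → Prop
  | vertex (i : Fin k) : Built k Unit ⊥ (fun _ => i)
  | union {V W : Type} {G : SimpleGraph V} {H : SimpleGraph W} {l : V → Fin k} {m : W → Fin k} :
      Built k V G l → Built k W H m → Built k (V ⊕ W) (G.sum H) (Sum.elim l m)
  | join {V : Type} {G : SimpleGraph V} {l : V → Fin k} (i j : Fin k) : i ≠ j →
      Built k V G l → Built k V (G ⊔ joinGraph l i j) l
  | rename {V : Type} {G : SimpleGraph V} {l : V → Fin k} (i j : Fin k) :
      Built k V G l → Built k V G (fun v => if l v = i then j else l v)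
  | iso {V W : Type} {G : SimpleGraph V} {H : SimpleGraph W} {l : V → Fin k} {m : W → Fin k}
      (e : G ≃g H) : (∀ v, m (e v) = l v) → Built k V G l → Built k W H m

/-- The clique-width: the least number of labels with which the graph can be built. -/
noncomputable def cliqueWidth {V : Type} (G : SimpleGraph V) : ℕ∞ :=
  ⨅ (k : ℕ) (_ : ∃ l : V → Fin k, Built k V G l), (k : ℕ∞)

/-- A class of graphs has bounded clique-width. -/
def BoundedCliqueWidth (C : ∀ V : Type, SimpleGraph V → Prop) : Prop :=
  ∃ c : ℕ, ∀ (V : Type) [Finite V] [Nonempty V] (G : SimpleGraph V), C V G → cliqueWidth G ≤ c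

/-- Chordal bipartite: bipartite without induced cycles of length at least six. -/
def ChordalBipartite {V : Type} (G : SimpleGraph V) : Prop :=
  G.Colorable 2 ∧ ∀ n, 6 ≤ n → ¬ Nonempty (SimpleGraph.cycleGraph n ↪g G)

/-- The vertices of `E_t`: the centre, its `t + 1` neighbours, and two further vertices. -/
inductive EVert (t : ℕ)
  | centre : EVert t
  | mid (i : Fin (t + 1)) : EVert t
  | tip (j : Fin 2) : EVert t

/-- `E_t`: the star `K_{1,t+1}` with exactly two of its edges subdivided once each: the centre is
adjacent to all `mid i`, and `mid j` is adjacent to `tip j` for `j = 0, 1`. -/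
def graphE (t : ℕ) : SimpleGraph (EVert t) :=
  SimpleGraph.fromRel (fun u v => (u = .centre ∧ ∃ i, v = .mid i) ∨
    ∃ (i : Fin (t + 1)) (j : Fin 2), i.val = j.val ∧ u = .mid i ∧ v = .tip j)

/-- The class of `E_t`-free chordal bipartite graphs. -/
def EFreeChordalBipartite (t : ℕ) (V : Type) (G : SimpleGraph V) : Prop :=
  ChordalBipartite G ∧ ¬ Nonempty (graphE t ↪g G)

end Pool.Agent.Helper36.CWid
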