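import Pool.Agent.Helper36.CWid.Bi

namespace Pool.Agent.Helper36.CWid

open Finset Classical

universe u v

variable {A : Type u} {B : Type v}

lemma chain_exists {ι : Type*} (m : ℕ) : ∀ (k : ℕ) (T : Finset (Finset ι)),
    (∀ C ⊆ T, (∀ X ∈ C, ∀ Y ∈ C, X ⊆ Y → X = Y) → C.card ≤ m) → k * m < T.card →
    ∃ f : ℕ → Finset ι, (∀ i ≤ k, f i ∈ T) ∧ (∀ i < k, f i ⊂ f (i + 1)) := by
  intro k
  induction k with
  | zero =>
    intro T _ hT
    have : T.Nonempty := by rw [← card_pos]; omega
    obtain ⟨X, hX⟩ := this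
    exact ⟨fun _ => X, fun _ _ => hX, fun i hi => absurd hi (by omega)⟩
  | succ k ih =>
    intro T hT hcard
    set Mx := T.filter (fun X => ∀ Y ∈ T, X ⊆ Y → X = Y) with hMx
    have h1 : Mx.card ≤ m := hT Mx (filter_subset _ _) (by
      intro X hX Y hY hXY
      exact (mem_filter.mp hX).2 Y (mem_filter.mp hY).1 hXY)
    have h2 : (T \ Mx).card = T.card - Mx.card := card_sdiff_of_subset (filter_subset _ _)
    have h3 : k * m < (T \ Mx).card := by
      rw [h2]
      have : (k + 1) * m = k * m + m := by ring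
      omega
    obtain ⟨f, hf, hf'⟩ := ih (T \ Mx) (fun C hC => hT C (hC.trans sdiff_subset)) h3
    have hk := mem_sdiff.mp (hf k le_rfl)
    have : ∃ Y ∈ T, f k ⊆ Y ∧ f k ≠ Y := by
      by_contra hcon
      push Not at hcon
      exact hk.2 (mem_filter.mpr ⟨hk.1, hcon⟩)
    obtain ⟨Y, hY, hsub, hne⟩ := this
    refine ⟨fun i => if i ≤ k then f i else Y, ?_, ?_⟩
    · intro i hi
      simp only
      split_ifs with h
      · exact (mem_sdiff.mp (hf i h)).1
      · exact hY
    · intro i hi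
      simp only
      rcases Nat.lt_or_ge i k with h | h
      · rw [if_pos h.le, if_pos (by omega)]
        exact hf' i h
      · have : i = k := by omega
        subst this
        rw [if_pos le_rfl, if_neg (by omega)]
        exact ssubset_of_subset_of_ne hsub hne

lemma antichain_bound {R : A → B → Prop} {s : ℕ} (h6 : NoC6 R) (hE' : NoE s (flip R))
    {c : B} {U : Finset A} (hU : ∀ x ∈ U, R x c) (C : Finset (Finset A))
    (hC : ∀ X ∈ C, ∃ y, X = U.filter (fun x => R x y))
    (hanti : ∀ X ∈ C, ∀ Y ∈ C, X ⊆ Y → X = Y) : C.card ≤ 2 ^ (4 * s) + 2 := by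
  set D := C.image (fun X => U \ X) with hD
  have hsubU : ∀ X ∈ C, X ⊆ U := by
    intro X hX
    obtain ⟨y, rfl⟩ := hC X hX
    exact filter_subset _ _
  have hinj : Set.InjOn (fun X => U \ X) (C : Set (Finset A)) := by
    intro X hX Y hY hXY
    have h1 := hsubU X hX
    have h2 := hsubU Y hY
    simp only at hXY
    rw [← Finset.sdiff_sdiff_eq_self h1, ← Finset.sdiff_sdiff_eq_self h2, hXY]
  have hcard : D.card = C.card := card_image_of_injOn hinj
  -- pairwise intersections are small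
  have hint : ∀ X ∈ D, ∀ Y ∈ D, X ≠ Y → (X ∩ Y).card ≤ s := by
    intro X' hX' Y' hY' hne
    obtain ⟨X, hX, rfl⟩ := mem_image.mp hX'
    obtain ⟨Y, hY, rfl⟩ := mem_image.mp hY'
    have hne' : X ≠ Y := fun h => hne (by rw [h])
    have h1 : ¬ X ⊆ Y := fun h => hne' (hanti X hX Y hY h)
    have h2 : ¬ Y ⊆ X := fun h => hne' (hanti Y hY X hX h).symm
    obtain ⟨x1, hx1, hx1'⟩ := not_subset.mp h1
    obtain ⟨x2, hx2, hx2'⟩ := not_subset.mp h2
    obtain ⟨y1, rfl⟩ := hC X hX
    obtain ⟨y2, rfl⟩ := hC Y hY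
    simp only [mem_filter, not_and] at hx1 hx1' hx2 hx2'
    have := hE' c y1 y2 x1 x2 ((U \ U.filter (fun x => R x y1)) ∩ (U \ U.filter (fun x => R x y2)))
      (hU x1 hx1.1) (hU x2 hx2.1) hx1.2 (hx2' hx2.1) hx2.2 (hx1' hx1.1) (by
        intro z hz
        simp only [mem_inter, mem_sdiff, mem_filter, not_and] at hz
        exact ⟨hU z hz.1.1, hz.1.2 hz.1.1, hz.2.2 hz.1.1⟩)
    exact this.le
  have hcov : ∀ F₁ ∈ D, ∀ F₂ ∈ D, ∀ F₃ ∈ D, F₁ ⊆ F₂ ∪ F₃ ∨ F₂ ⊆ F₁ ∪ F₃ ∨ F₃ ⊆ F₁ ∪ F₂ := by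
    intro F₁ h1 F₂ h2 F₃ h3
    obtain ⟨X1, hX1, rfl⟩ := mem_image.mp h1
    obtain ⟨X2, hX2, rfl⟩ := mem_image.mp h2
    obtain ⟨X3, hX3, rfl⟩ := mem_image.mp h3
    obtain ⟨y1, rfl⟩ := hC X1 hX1
    obtain ⟨y2, rfl⟩ := hC X2 hX2
    obtain ⟨y3, rfl⟩ := hC X3 hX3
    by_contra hcon
    push Not at hcon
    obtain ⟨q1, q2, q3⟩ := hcon
    obtain ⟨i1, p1, p1'⟩ := not_subset.mp q1
    obtain ⟨i2, p2, p2'⟩ := not_subset.mp q2
    obtain ⟨i3, p3, p3'⟩ := not_subset.mp q3
    have key : ∀ {x : A} {y : B}, x ∈ U → x ∉ U \ U.filter (fun x => R x y) → R x y := by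
      intro x y hx hxy
      rw [mem_sdiff, mem_filter] at hxy
      tauto
    have key2 : ∀ {x : A} {y : B}, x ∈ U \ U.filter (fun x => R x y) → x ∈ U ∧ ¬ R x y := by
      intro x y hx
      rw [mem_sdiff, mem_filter] at hx
      tauto
    rw [mem_union, not_or] at p1' p2' p3'
    have r1 := key2 p1
    have r2 := key2 p2
    have r3 := key2 p3
    exact h6 i1 i2 i3 y1 y2 y3 ⟨r1.2, key r1.1 p1'.1, key r1.1 p1'.2, key r2.1 p2'.1,
      r2.2, key r2.1 p2'.2, key r3.1 p3'.1, key r3.1 p3'.2, r3.2⟩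
  rcases D.eq_empty_or_nonempty with h0 | hne
  · rw [← hcard, h0]; simp
  obtain ⟨F₁, h1, F₂, h2, hc⟩ := cover2 D hne hcov
  set D' := (D.erase F₁).erase F₂ with hD'
  obtain ⟨W, hW, hW'⟩ := union_small (s := 2 * s) D' (by
    intro G hG
    have hG1 := (mem_erase.mp hG).1
    have hG2 := mem_erase.mp (mem_erase.mp hG).2
    have e1 : G ⊆ (G ∩ F₁) ∪ (G ∩ F₂) := by
      intro x hx
      have := hc G hG2.2 hx
      simp only [mem_union, mem_inter] at this ⊢
      tauto
    have e2 := card_le_card e1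
    have e3 := card_union_le (G ∩ F₁) (G ∩ F₂)
    have e4 := hint G hG2.2 F₁ h1 hG2.1
    have e5 := hint G hG2.2 F₂ h2 hG1
    omega) (by
    intro F₁ h1 F₂ h2 F₃ h3
    exact hcov F₁ (mem_of_mem_erase (mem_of_mem_erase h1)) F₂
      (mem_of_mem_erase (mem_of_mem_erase h2)) F₃ (mem_of_mem_erase (mem_of_mem_erase h3)))
  have hsub : D' ⊆ W.powerset := by
    intro G hG
    rw [mem_powerset]
    exact hW' G hG
  have e1 := card_le_card hsub
  rw [card_powerset] at e1
  have e2 : 2 ^ W.card ≤ 2 ^ (4 * s) := Nat.pow_le_pow_right (by norm_num) (by omega)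
  have e3 : D.card ≤ D'.card + 2 := by
    have q1 : (D.erase F₁).card = D.card - 1 := card_erase_of_mem h1
    have q2 : (D.erase F₁).card - 1 ≤ D'.card := Finset.pred_card_le_card_erase
    omega
  omega

lemma deg_bound {R : A → B → Prop} {s L : ℕ} (hL : 0 < L) (h6 : NoC6 R) (hE' : NoE s (flip R))
    {c : B} {U : Finset A} {S : Finset B} (hU : ∀ x ∈ U, R x c)
    (hsep : ∀ x ∈ U, ∀ x' ∈ U, x ≠ x' → ∃ y ∈ S, ¬ (R x y ↔ R x' y))
    (hno : ¬ ∃ a : ℕ → A, ∃ b : ℕ → B, HG R (range L) a b ∧ (∀ i < L, a i ∈ U)) :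
    U.card ≤ 2 ^ (L * (2 ^ (4 * s) + 2)) := by
  set T := S.image (fun y => U.filter (fun x => R x y)) with hT
  have h1 : U.card ≤ 2 ^ T.card := by
    rw [← card_powerset]
    apply card_le_card_of_injOn (fun x => T.filter (fun X => x ∈ X))
    · intro x _
      simp only [coe_powerset, Set.mem_preimage, Set.mem_powerset_iff, coe_subset]
      exact filter_subset _ _
    · intro x hx x' hx' hxx
      by_contra hne
      obtain ⟨y, hy, hyy⟩ := hsep x hx x' hx' hne
      apply hyy
      have hmem : U.filter (fun x => R x y) ∈ T := mem_image_of_mem _ hy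
      simp only at hxx
      have h := Finset.ext_iff.mp hxx (U.filter (fun x => R x y))
      simp only [mem_filter] at h
      have hx2 : x ∈ U := hx
      have hx2' : x' ∈ U := hx'
      constructor
      · intro hr
        exact (h.mp ⟨hmem, hx2, hr⟩).2.2
      · intro hr
        exact (h.mpr ⟨hmem, hx2', hr⟩).2.2
  have h2 : T.card ≤ L * (2 ^ (4 * s) + 2) := by
    by_contra hcon
    push Not at hcon
    obtain ⟨f, hf, hf'⟩ := chain_exists (2 ^ (4 * s) + 2) L T (by
      intro C hCT hanti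
      apply antichain_bound h6 hE' hU C _ hanti
      intro X hX
      obtain ⟨y, _, rfl⟩ := mem_image.mp (hCT hX)
      exact ⟨y, rfl⟩) hcon
    apply hno
    have hb : ∀ i, ∃ y, i ≤ L → f i = U.filter (fun x => R x y) := by
      intro i
      by_cases hi : i ≤ L
      · obtain ⟨y, _, hy⟩ := mem_image.mp (hf i hi)
        exact ⟨y, fun _ => hy.symm⟩
      · exact ⟨c, fun h => absurd h hi⟩
    choose b hb using hb
    have ha : ∀ i, ∃ x, i < L → x ∈ f (i + 1) ∧ x ∉ f i := by
      intro i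
      by_cases hi : i < L
      · obtain ⟨x, hx, hx'⟩ := exists_of_ssubset (hf' i hi)
        exact ⟨x, fun _ => ⟨hx, hx'⟩⟩
      · obtain ⟨x, hx, _⟩ := exists_of_ssubset (hf' 0 hL)
        exact ⟨x, fun h => absurd h hi⟩
    choose a ha using ha
    have hmono : ∀ i j, i ≤ j → j ≤ L → f i ⊆ f j := by
      intro i j hij
      induction j, hij using Nat.le_induction with
      | base => intro _; exact Subset.rfl
      | succ j hij ih =>
        intro hj
        exact (ih (by omega)).trans (hf' j (by omega)).1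
    refine ⟨a, fun j => b (j + 1), ?_, ?_⟩
    · intro i hi j hj
      rw [mem_range] at hi hj
      have hia := ha i hi
      have hmem : ∀ k ≤ L, (R (a i) (b k) ↔ a i ∈ f k) := by
        intro k hk
        rw [hb k hk, mem_filter]
        have : a i ∈ U := by
          have := hia.1
          rw [hb (i + 1) (by omega), mem_filter] at this
          exact this.1
        tauto
      rw [hmem (j + 1) (by omega)]
      constructor
      · intro h
        by_contra hc
        push Not at hc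
        exact hia.2 (hmono (j + 1) i (by omega) (by omega) h)
      · intro h
        exact hmono (i + 1) (j + 1) (by omega) (by omega) hia.1
    · intro i hi
      have := (ha i hi).1
      rw [hb (i + 1) (by omega), mem_filter] at this
      exact this.1
  exact h1.trans (Nat.pow_le_pow_right (by norm_num) h2)

end Pool.Agent.Helper36.CWid
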