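import Pool.Agent.Helper36.CWid.Dec

namespace Pool.Agent.Helper36.CWid

open Finset Classical

universe u v

variable {A : Type u} {B : Type v}

/-- No induced cycle of length at least six. -/
def NoCyc (R : A → B → Prop) : Prop :=
  ∀ (n : ℕ) (x : ℕ → A) (y : ℕ → B),
    ¬ ∀ i j, i < n + 3 → j < n + 3 → (R (x i) (y j) ↔ j = i ∨ j = i + 1 ∨ (i = n + 2 ∧ j = 0))

lemma NoCyc.noC6 {R : A → B → Prop} (h : NoCyc R) : NoC6 R := by
  rintro a₁ a₂ a₃ b₁ b₂ b₃ ⟨h1, h2, h3, h4, h5, h6, h7, h8, h9⟩
  apply h 0 (fun i => if i = 0 then a₁ else if i = 1 then a₂ else a₃)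
    (fun i => if i = 0 then b₂ else if i = 1 then b₃ else b₁)
  intro i j hi hj
  have hi' : i = 0 ∨ i = 1 ∨ i = 2 := by omega
  have hj' : j = 0 ∨ j = 1 ∨ j = 2 := by omega
  rcases hi' with rfl | rfl | rfl <;> rcases hj' with rfl | rfl | rfl <;> simp_all

lemma seq_of_rtg {α : Type*} {r : α → α → Prop} {a b : α} (h : Relation.ReflTransGen r a b) :
    ∃ m, ∃ c : ℕ → α, c 0 = a ∧ c m = b ∧ ∀ i < m, r (c i) (c (i + 1)) := by
  induction h with
  | refl => exact ⟨0, fun _ => a, rfl, rfl, fun i hi => absurd hi (by omega)⟩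
  | @tail x y hx hxy ih =>
    obtain ⟨m, c, h0, hm, hc⟩ := ih
    refine ⟨m + 1, fun i => if i ≤ m then c i else y, by simp [h0], by simp, ?_⟩
    intro i hi
    rcases Nat.lt_or_ge i m with h | h
    · simp only [if_pos h.le, if_pos (show i + 1 ≤ m by omega)]
      exact hc i h
    · have : i = m := by omega
      subst this
      simp only [if_pos le_rfl, if_neg (show ¬ i + 1 ≤ i by omega), hm]
      exact hxy

lemma claimK [Fintype A] {R : A → B → Prop} (hcyc : NoCyc R) (b0 : B) (K : Finset B)
    (hne : K.Nonempty)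
    (hconn : ∀ c ∈ K, ∀ c' ∈ K, Relation.ReflTransGen
      (fun u v => u ∈ K ∧ v ∈ K ∧ ∃ a, ¬ R a b0 ∧ R a u ∧ R a v) c c') :
    ∃ b1 ∈ K, ∀ s, R s b0 → (∃ c ∈ K, R s c) → R s b1 := by
  obtain ⟨b1, hb1, hmax⟩ := K.exists_max_image
    (fun b => (univ.filter (fun s => R s b0 ∧ R s b)).card) hne
  refine ⟨b1, hb1, ?_⟩
  intro s hs0 ⟨c', hc', hsc'⟩
  by_contra hcon
  -- shortest sequence
  let P : ℕ → Prop := fun m => ∃ c : ℕ → B, c 0 = b1 ∧ (∀ i ≤ m, c i ∈ K) ∧
    (∀ i < m, ∃ a, ¬ R a b0 ∧ R a (c i) ∧ R a (c (i + 1))) ∧ R s (c m)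
  have hP : ∃ m, P m := by
    obtain ⟨m, c, h0, hm, hc⟩ := seq_of_rtg (hconn b1 hb1 c' hc')
    refine ⟨m, c, h0, ?_, fun i hi => (hc i hi).2.2, by rw [hm]; exact hsc'⟩
    intro i hi
    rcases Nat.lt_or_ge i m with h | h
    · exact (hc i h).1
    · have : i = m := by omega
      rw [this, hm]; exact hc'
  set m := Nat.find hP with hmdef
  obtain ⟨c, h0, hcK, hlink, hsm⟩ := Nat.find_spec hP
  rw [← hmdef] at hcK hlink hsm
  have hmin : ∀ k < m, ¬ P k := fun k hk => Nat.find_min hP hk
  have hsi : ∀ i < m, ¬ R s (c i) := by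
    intro i hi hR
    exact hmin i hi ⟨c, h0, fun k hk => hcK k (by omega), fun k hk => hlink k (by omega), hR⟩
  have hfar : ∀ i j, i + 2 ≤ j → j ≤ m → ¬ ∃ a, ¬ R a b0 ∧ R a (c i) ∧ R a (c j) := by
    intro i j hij hjm hl
    apply hmin (m - (j - i - 1)) (by omega)
    refine ⟨fun k => if k ≤ i then c k else c (k + (j - i - 1)), by simp [h0], ?_, ?_, ?_⟩
    · intro k hk
      simp only
      split_ifs
      · exact hcK k (by omega)
      · exact hcK _ (by omega)
    · intro k hk
      simp only
      rcases Nat.lt_trichotomy k i with h | h | h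
      · rw [if_pos h.le, if_pos (by omega)]
        exact hlink k (by omega)
      · subst h
        rw [if_pos le_rfl, if_neg (by omega)]
        have : k + 1 + (j - k - 1) = j := by omega
        rw [this]
        exact hl
      · rw [if_neg (by omega), if_neg (by omega)]
        have : k + 1 + (j - i - 1) = (k + (j - i - 1)) + 1 := by omega
        rw [this]
        exact hlink _ (by omega)
    · simp only
      rw [if_neg (by omega)]
      have : m - (j - i - 1) + (j - i - 1) = m := by omega
      rw [this]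
      exact hsm
  have hmpos : 0 < m := by
    by_contra hz
    have : m = 0 := by omega
    rw [this, h0] at hsm
    exact hcon hsm
  have hx : ∀ i, ∃ a, i < m → (¬ R a b0 ∧ R a (c i) ∧ R a (c (i + 1))) := by
    intro i
    by_cases hi : i < m
    · obtain ⟨a, ha⟩ := hlink i hi
      exact ⟨a, fun _ => ha⟩
    · exact ⟨s, fun h => absurd h hi⟩
  choose x hx using hx
  have hxc : ∀ i < m, ∀ j ≤ m, (R (x i) (c j) ↔ j = i ∨ j = i + 1) := by
    intro i hi j hj
    constructor
    · intro hR
      by_contra hno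
      rcases Nat.lt_or_ge j i with h | h
      · exact hfar j (i + 1) (by omega) (by omega) ⟨x i, (hx i hi).1, hR, (hx i hi).2.2⟩
      · exact hfar i j (by omega) hj ⟨x i, (hx i hi).1, (hx i hi).2.1, hR⟩
    · rintro (rfl | rfl)
      · exact (hx _ hi).2.1
      · exact (hx _ hi).2.2
  -- every neighbour of b0 and b1 is a neighbour of c m
  have hall : ∀ s', R s' b0 → R s' b1 → R s' (c m) := by
    intro s' hs'0 hs'1
    by_contra hs'm
    have hex : ∃ k, k ≤ m ∧ R s' (c (m - k)) := ⟨m, le_rfl, by rw [Nat.sub_self, h0]; exact hs'1⟩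
    set k := Nat.find hex with hk
    obtain ⟨hkm, hkR⟩ := Nat.find_spec hex
    rw [← hk] at hkm hkR
    have hkmin : ∀ l < k, ¬ (l ≤ m ∧ R s' (c (m - l))) := fun l hl => Nat.find_min hex hl
    have hkpos : 0 < k := by
      by_contra hz
      have : k = 0 := by omega
      rw [this, Nat.sub_zero] at hkR
      exact hs'm hkR
    obtain ⟨i, hi⟩ : ∃ i, i = m - k := ⟨_, rfl⟩
    rw [← hi] at hkR
    have him : i < m := by omega
    have hgt : ∀ j, i < j → j ≤ m → ¬ R s' (c j) := by
      intro j hij hjm hR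
      apply hkmin (m - j) (by omega)
      refine ⟨by omega, ?_⟩
      have : m - (m - j) = j := by omega
      rw [this]
      exact hR
    apply hcyc (m - i - 1)
      (fun k => if k = 0 then s' else if k ≤ m - i then x (i + k - 1) else s)
      (fun l => if l = 0 then b0 else c (i + l - 1))
    intro k l hk hl
    rcases Nat.eq_zero_or_pos k with rfl | hkp
    · rw [if_pos rfl]
      rcases Nat.eq_zero_or_pos l with rfl | hlp
      · rw [if_pos rfl]
        simp [hs'0]
      · rw [if_neg (by omega)]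
        rcases Nat.lt_or_ge l 2 with h | h
        · have : l = 1 := by omega
          subst this
          simp only [Nat.add_sub_cancel]
          simp [hkR]
        · have := hgt (i + l - 1) (by omega) (by omega)
          simp only [this, false_iff]
          omega
    · rw [if_neg (by omega)]
      by_cases hk2 : k ≤ m - i
      · rw [if_pos hk2]
        rcases Nat.eq_zero_or_pos l with rfl | hlp
        · rw [if_pos rfl]
          have := (hx (i + k - 1) (by omega)).1
          simp only [this, false_iff]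
          omega
        · rw [if_neg (by omega), hxc (i + k - 1) (by omega) (i + l - 1) (by omega)]
          omega
      · rw [if_neg hk2]
        rcases Nat.eq_zero_or_pos l with rfl | hlp
        · rw [if_pos rfl]
          simp only [hs0, true_iff]
          right; right
          exact ⟨by omega, trivial⟩
        · rw [if_neg (by omega)]
          rcases Nat.lt_or_ge (i + l - 1) m with h | h
          · have := hsi _ h
            simp only [this, false_iff]
            omega
          · have : i + l - 1 = m := by omega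
            rw [this]
            simp only [hsm, true_iff]
            omega
  have hlt : (univ.filter (fun s => R s b0 ∧ R s b1)).card <
      (univ.filter (fun s => R s b0 ∧ R s (c m))).card := by
    apply card_lt_card
    rw [ssubset_iff_of_subset]
    · refine ⟨s, by simp [hs0, hsm], by simp [hcon]⟩
    · intro s' hs'
      simp only [mem_filter, mem_univ, true_and] at hs' ⊢
      exact ⟨hs'.1, hall s' hs'.1 hs'.2⟩
  have := hmax (c m) (hcK m le_rfl)
  omega

lemma ear [Fintype A] {R : A → B → Prop} (hcyc : NoCyc R) : ∀ (n : ℕ) (S : Finset B),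
    S.card = n → 2 ≤ S.card → ∀ b0 ∈ S,
    ∃ b ∈ S, b ≠ b0 ∧ ∃ b' ∈ S, b' ≠ b ∧
      ∀ a, R a b → (∃ b'' ∈ S, b'' ≠ b ∧ R a b'') → R a b' := by
  intro n
  induction n using Nat.strong_induction_on with
  | _ n ih =>
  intro S hS h2 b0 hb0
  have hne : (S.erase b0).Nonempty := by
    rw [← card_pos, card_erase_of_mem hb0]; omega
  obtain ⟨cs, hcs⟩ := hne
  let r : B → B → Prop := fun u v => u ∈ S.erase b0 ∧ v ∈ S.erase b0 ∧
    ∃ a, ¬ R a b0 ∧ R a u ∧ R a v
  let K := (S.erase b0).filter (fun c => Relation.ReflTransGen r cs c)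
  have hcsK : cs ∈ K := mem_filter.mpr ⟨hcs, Relation.ReflTransGen.refl⟩
  have hKsub : K ⊆ S.erase b0 := filter_subset _ _
  have hb0K : b0 ∉ K := fun h => (mem_erase.mp (hKsub h)).1 rfl
  have hclosed : ∀ c ∈ K, ∀ c', r c c' → c' ∈ K := by
    intro c hc c' hr
    exact mem_filter.mpr ⟨hr.2.1, (mem_filter.mp hc).2.tail hr⟩
  let rK : B → B → Prop := fun u v => u ∈ K ∧ v ∈ K ∧ ∃ a, ¬ R a b0 ∧ R a u ∧ R a v
  have hreach : ∀ c, Relation.ReflTransGen r cs c → Relation.ReflTransGen rK cs c := by
    intro c hc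
    induction hc with
    | refl => exact Relation.ReflTransGen.refl
    | @tail u v hu huv ihh =>
      have huK : u ∈ K := mem_filter.mpr ⟨huv.1, hu⟩
      exact ihh.tail ⟨huK, hclosed u huK v huv, huv.2.2⟩
  have hsymm : Std.Symm rK := ⟨by
    rintro u v ⟨h1, h2, a, h3, h4, h5⟩
    exact ⟨h2, h1, a, h3, h5, h4⟩⟩
  have hconn : ∀ c ∈ K, ∀ c' ∈ K, Relation.ReflTransGen rK c c' := by
    intro c hc c' hc'
    have h1 := hreach c (mem_filter.mp hc).2
    have h2 := hreach c' (mem_filter.mp hc').2
    have h3 : Relation.ReflTransGen rK c cs := (inferInstance : Std.Symm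
      (Relation.ReflTransGen rK)).symm _ _ h1
    exact h3.trans h2
  by_cases hK : insert b0 K = S
  · obtain ⟨b1, hb1, hb1'⟩ := claimK hcyc b0 K ⟨cs, hcsK⟩ hconn
    have hKc : K.card + 1 = S.card := by rw [← hK, card_insert_of_notMem hb0K]
    by_cases hK2 : 2 ≤ K.card
    · obtain ⟨b, hb, hbb1, b', hb', hbb', hear⟩ := ih K.card (by omega) K rfl hK2 b1 hb1
      have hbS := mem_erase.mp (hKsub hb)
      refine ⟨b, hbS.2, hbS.1, b', (mem_erase.mp (hKsub hb')).2, hbb', ?_⟩
      rintro a hab ⟨b'', hb'', hne'', hab''⟩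
      by_cases h : b'' = b0
      · subst h
        exact hear a hab ⟨b1, hb1, hbb1.symm, hb1' a hab'' ⟨b, hb, hab⟩⟩
      · have : b'' ∈ K := by
          rw [← hK] at hb''
          rcases mem_insert.mp hb'' with h' | h'
          · exact absurd h' h
          · exact h'
        exact hear a hab ⟨b'', this, hne'', hab''⟩
    · have hK1 : K.card = 1 := by
        have : 0 < K.card := card_pos.mpr ⟨cs, hcsK⟩
        omega
      obtain ⟨z, hz⟩ := card_eq_one.mp hK1
      have hb1z : b1 = z := by rw [hz] at hb1; simpa using hb1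
      have hb1S := mem_erase.mp (hKsub hb1)
      refine ⟨b1, hb1S.2, hb1S.1, b0, hb0, hb1S.1.symm, ?_⟩
      rintro a hab ⟨b'', hb'', hne'', hab''⟩
      rw [← hK, hz, mem_insert, mem_singleton, ← hb1z] at hb''
      rcases hb'' with h | h
      · rw [← h]; exact hab''
      · exact absurd h hne''
  · have hsub : insert b0 K ⊆ S := by
      intro z hz
      rcases mem_insert.mp hz with rfl | hz
      · exact hb0
      · exact (mem_erase.mp (hKsub hz)).2
    have hlt : (insert b0 K).card < S.card := card_lt_card (ssubset_of_subset_of_ne hsub hK)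
    have hge : 2 ≤ (insert b0 K).card := by
      rw [card_insert_of_notMem hb0K]
      have : 0 < K.card := card_pos.mpr ⟨cs, hcsK⟩
      omega
    obtain ⟨b, hb, hbb0, b', hb', hbb', hear⟩ := ih (insert b0 K).card (by omega) _ rfl hge b0
      (mem_insert_self _ _)
    have hbK : b ∈ K := by
      rcases mem_insert.mp hb with h' | h'
      · exact absurd h' hbb0
      · exact h'
    refine ⟨b, hsub hb, hbb0, b', hsub hb', hbb', ?_⟩
    rintro a hab ⟨b'', hb'', hne'', hab''⟩
    by_cases h0 : R a b0
    · exact hear a hab ⟨b0, mem_insert_self _ _, hbb0.symm, h0⟩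
    · have hb''0 : b'' ≠ b0 := by rintro rfl; exact h0 hab''
      have : b'' ∈ K := hclosed b hbK b'' ⟨hKsub hbK, mem_erase.mpr ⟨hb''0, hb''⟩, a, h0, hab, hab''⟩
      exact hear a hab ⟨b'', mem_insert_of_mem this, hne'', hab''⟩

end Pool.Agent.Helper36.CWid
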