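import Pool.Agent.Helper36.CWid.Irr

namespace Pool.Agent.Helper36.CWid

open Finset Classical

lemma NoCyc.comap {A B A' B' : Type*} {R : A → B → Prop} (h : NoCyc R) (i : A' → A) (j : B' → B) :
    NoCyc (fun a b => R (i a) (j b)) := by
  intro n x y hh
  exact h n (fun k => i (x k)) (fun k => j (y k)) hh

lemma NoE.comap {A B A' B' : Type*} {R : A → B → Prop} {s : ℕ} (h : NoE s R) (i : A' → A)
    (j : B' ↪ B) : NoE s (fun a b => R (i a) (j b)) := by
  intro c a' a'' b' b'' F h1 h2 h3 h4 h5 h6 h7
  have := h (i c) (i a') (i a'') (j b') (j b'') (F.map j) h1 h2 h3 h4 h5 h6 (by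
    intro b hb
    obtain ⟨b0, hb0, rfl⟩ := mem_map.mp hb
    exact h7 b0 hb0)
  rwa [card_map] at this

lemma cl_univ_A {A B : Type*} [Fintype A] [Fintype B] (R : A → B → Prop) :
    (clA R univ univ univ).card ≤ 1 := by
  unfold clA
  rw [card_le_one]
  intro X hX Y hY
  obtain ⟨x, -, rfl⟩ := mem_image.mp hX
  obtain ⟨y, -, rfl⟩ := mem_image.mp hY
  simp

lemma cl_univ_B {A B : Type*} [Fintype A] [Fintype B] (R : A → B → Prop) :
    (clB R univ univ univ).card ≤ 1 := by
  unfold clB
  rw [card_le_one]
  intro X hX Y hY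
  obtain ⟨x, -, rfl⟩ := mem_image.mp hX
  obtain ⟨y, -, rfl⟩ := mem_image.mp hY
  simp

theorem main_dec_aux {s D N : ℕ} (hs : 1 ≤ s)
    (hD : 2 ^ ((6 * s + 4) * (2 ^ (4 * s) + 2)) ≤ D)
    (hN : D + 1 ≤ N) (hN' : 2 ^ D ≤ N) : ∀ (n : ℕ) (A B : Type) [Fintype A] [Fintype B]
    (R : A → B → Prop), Fintype.card A + Fintype.card B = n → NoCyc R → NoE s R →
    NoE s (flip R) → (Nonempty A ∨ Nonempty B) → Dec R N univ univ univ univ := by
  intro n
  induction n using Nat.strong_induction_on with
  | _ n ih =>
  intro A B _ _ R hn hcyc hE hE' hne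
  have IH : ∀ (MA : Finset A) (MB : Finset B), (MA ≠ univ ∨ MB ≠ univ) →
      (MA.Nonempty ∨ MB.Nonempty) → Dec R N MA MB MA MB := by
    intro MA MB hp hne'
    have hA : MA.card ≤ Fintype.card A := card_le_univ _
    have hB : MB.card ≤ Fintype.card B := card_le_univ _
    have hlt : MA.card + MB.card < n := by
      rcases hp with h | h
      · have := (card_lt_iff_ne_univ MA).mpr h
        omega
      · have := (card_lt_iff_ne_univ MB).mpr h
        omega
    have h1 := ih (Fintype.card {x // x ∈ MA} + Fintype.card {x // x ∈ MB})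
      (by simpa using hlt) {x // x ∈ MA} {x // x ∈ MB}
      (fun a b => R (Function.Embedding.subtype (fun x => x ∈ MA) a)
        (Function.Embedding.subtype (fun x => x ∈ MB) b)) rfl
      (hcyc.comap _ _) (hE.comap _ _)
      (NoE.comap (R := flip R) hE' (Function.Embedding.subtype (fun x => x ∈ MB))
        (Function.Embedding.subtype (fun x => x ∈ MA)))
      (by
        rcases hne' with ⟨x, hx⟩ | ⟨x, hx⟩
        · exact Or.inl ⟨⟨x, hx⟩⟩
        · exact Or.inr ⟨⟨x, hx⟩⟩)
    have h2 := h1.map
    rw [univ_eq_attach, univ_eq_attach, attach_map_val, attach_map_val] at h2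
    exact h2
  -- size one
  by_cases hn1 : n = 1
  · rcases hne with hA | hB
    · have c1 : 0 < Fintype.card A := Fintype.card_pos
      have c2 : Fintype.card B = 0 := by omega
      have c3 : Fintype.card A = 1 := by omega
      obtain ⟨a, ha⟩ := Fintype.card_eq_one_iff.mp c3
      have e1 : (univ : Finset A) = {a} := by
        ext x; simp [ha x]
      have e2 : (univ : Finset B) = ∅ := by
        rw [← card_eq_zero]; exact c2
      rw [e1, e2]
      exact Dec.leafA a
    · have c1 : 0 < Fintype.card B := Fintype.card_pos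
      have c2 : Fintype.card A = 0 := by omega
      have c3 : Fintype.card B = 1 := by omega
      obtain ⟨a, ha⟩ := Fintype.card_eq_one_iff.mp c3
      have e1 : (univ : Finset B) = {a} := by
        ext x; simp [ha x]
      have e2 : (univ : Finset A) = ∅ := by
        rw [← card_eq_zero]; exact c2
      rw [e1, e2]
      exact Dec.leafB a
  have hn2 : 2 ≤ Fintype.card A + Fintype.card B := by
    rcases hne with hA | hB
    · have c1 : 0 < Fintype.card A := Fintype.card_pos
      omega
    · have c1 : 0 < Fintype.card B := Fintype.card_pos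
      omega
  -- twins
  by_cases htA : ∃ a a', a ≠ a' ∧ ∀ y, R a y ↔ R a' y
  · obtain ⟨a, a', hne', ht⟩ := htA
    have h1 := IH (univ.erase a') univ (Or.inl (fun h => by
      have : a' ∈ (univ : Finset A) := mem_univ _
      rw [← h] at this
      exact (mem_erase.mp this).1 rfl)) (Or.inl ⟨a, mem_erase.mpr ⟨hne', mem_univ _⟩⟩)
    have h2 := dec_twin (by omega) hne' ht h1 (by simp)
    have e : hat a a' (univ.erase a') = univ := by
      ext z
      rw [mem_hat, mem_erase, mem_erase]
      simp only [mem_univ, and_true, iff_true]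
      by_cases hz : z = a'
      · exact Or.inr ⟨hz, hne'⟩
      · exact Or.inl hz
    rw [e] at h2
    exact h2
  by_cases htB : ∃ a a', a ≠ a' ∧ ∀ y, R y a ↔ R y a'
  · obtain ⟨a, a', hne', ht⟩ := htB
    have h1 := (IH univ (univ.erase a') (Or.inr (fun h => by
      have : a' ∈ (univ : Finset B) := mem_univ _
      rw [← h] at this
      exact (mem_erase.mp this).1 rfl)) (Or.inr ⟨a, mem_erase.mpr ⟨hne', mem_univ _⟩⟩)).flip
    have h2 := dec_twin (R := flip R) (by omega) hne' ht h1 (by simp)
    have e : hat a a' (univ.erase a') = univ := by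
      ext z
      rw [mem_hat, mem_erase, mem_erase]
      simp only [mem_univ, and_true, iff_true]
      by_cases hz : z = a'
      · exact Or.inr ⟨hz, hne'⟩
      · exact Or.inl hz
    rw [e] at h2
    exact h2.flip
  -- complementary bimodules
  by_cases hco : ∃ (MA : Finset A) (MB : Finset B), IsBi R MA MB ∧ IsBi R (univ \ MA) (univ \ MB) ∧
      ((∃ x, x ∈ MA) ∨ ∃ y, y ∈ MB) ∧ ((∃ x, x ∉ MA) ∨ ∃ y, y ∉ MB)
  · obtain ⟨MA, MB, h1, h2, h3, h4⟩ := hco
    have p1 : MA ≠ univ ∨ MB ≠ univ := by
      rcases h4 with ⟨x, hx⟩ | ⟨x, hx⟩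
      · exact Or.inl (fun h => hx (by rw [h]; exact mem_univ _))
      · exact Or.inr (fun h => hx (by rw [h]; exact mem_univ _))
    have p2 : univ \ MA ≠ univ ∨ univ \ MB ≠ univ := by
      rcases h3 with ⟨x, hx⟩ | ⟨x, hx⟩
      · exact Or.inl (fun h => by
          have : x ∈ (univ : Finset A) := mem_univ _
          rw [← h] at this
          exact (mem_sdiff.mp this).2 hx)
      · exact Or.inr (fun h => by
          have : x ∈ (univ : Finset B) := mem_univ _
          rw [← h] at this
          exact (mem_sdiff.mp this).2 hx)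
    have d1 := dec_of_bi h1 (IH MA MB p1 h3) Subset.rfl Subset.rfl
    have d2 := dec_of_bi h2 (IH _ _ p2 (by
      rcases h4 with ⟨x, hx⟩ | ⟨x, hx⟩
      · exact Or.inl ⟨x, mem_sdiff.mpr ⟨mem_univ _, hx⟩⟩
      · exact Or.inr ⟨x, mem_sdiff.mpr ⟨mem_univ _, hx⟩⟩)) Subset.rfl Subset.rfl
    have e1 : MA ∪ (univ \ MA) = univ := union_sdiff_of_subset (subset_univ _)
    have e2 : MB ∪ (univ \ MB) = univ := union_sdiff_of_subset (subset_univ _)
    have d3 := Dec.node _ _ _ _ d1 d2 disjoint_sdiff disjoint_sdiff
      (by rw [e1, e2]; exact (cl_univ_A R).trans (by omega))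
      (by rw [e1, e2]; exact (cl_univ_B R).trans (by omega))
    rw [e1, e2] at d3
    exact d3
  have hI : Irred R := by
    refine ⟨?_, ?_, ?_, ?_, ?_⟩
    · intro a a' h
      by_contra hc
      exact htA ⟨a, a', hc, h⟩
    · intro a a' h
      by_contra hc
      exact htB ⟨a, a', hc, h⟩
    · intro a
      by_contra hc
      push Not at hc
      apply hco
      refine ⟨{a}, ∅, ⟨?_, ?_⟩, ⟨?_, ?_⟩, Or.inl ⟨a, by simp⟩, ?_⟩
      · intro y _ x hx x' hx' hR
        rw [mem_singleton] at hx hx'
        rw [hx']; rw [hx] at hR; exact hR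
      · intro x _ y hy
        exact absurd hy (by simp)
      · intro y hy
        exact absurd (mem_sdiff.mpr ⟨mem_univ y, by simp⟩) hy
      · intro x hx y _ y' _ hR
        have : x = a := by
          by_contra h
          exact hx (mem_sdiff.mpr ⟨mem_univ _, by simpa using h⟩)
        rw [this] at hR ⊢
        exact hc y y' hR
      · by_contra hcon
        push Not at hcon
        have h1 : Fintype.card A ≤ 1 := by
          rw [Fintype.card_le_one_iff]
          intro x x'
          have q1 := hcon.1 x
          have q2 := hcon.1 x'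
          rw [mem_singleton] at q1 q2
          rw [q1, q2]
        have h2 : Fintype.card B = 0 := by
          rw [Fintype.card_eq_zero_iff]
          exact ⟨fun y => absurd (hcon.2 y) (by simp)⟩
        omega
    · intro b
      by_contra hc
      push Not at hc
      apply hco
      refine ⟨∅, {b}, ⟨?_, ?_⟩, ⟨?_, ?_⟩, Or.inr ⟨b, by simp⟩, ?_⟩
      · intro y _ x hx
        exact absurd hx (by simp)
      · intro y _ x hx x' hx' hR
        rw [mem_singleton] at hx hx'
        rw [hx']; rw [hx] at hR; exact hR
      · intro y hy x _ x' _ hR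
        have : y = b := by
          by_contra h
          exact hy (mem_sdiff.mpr ⟨mem_univ _, by simpa using h⟩)
        rw [this] at hR ⊢
        exact hc x x' hR
      · intro x hx
        exact absurd (mem_sdiff.mpr ⟨mem_univ x, by simp⟩) hx
      · by_contra hcon
        push Not at hcon
        have h1 : Fintype.card B ≤ 1 := by
          rw [Fintype.card_le_one_iff]
          intro x x'
          have q1 := hcon.2 x
          have q2 := hcon.2 x'
          rw [mem_singleton] at q1 q2
          rw [q1, q2]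
        have h2 : Fintype.card A = 0 := by
          rw [Fintype.card_eq_zero_iff]
          exact ⟨fun y => absurd (hcon.1 y) (by simp)⟩
        omega
    · intro MA MB h1 h2 h3 h4
      exact hco ⟨MA, MB, h1, h2, h3, h4⟩
  have hB : Nonempty B := by
    rcases hne with ⟨⟨a⟩⟩ | h
    · obtain ⟨y, -⟩ := hI.hA a
      exact ⟨y⟩
    · exact h
  exact irreducible_case hs hcyc hE hE' hD hN hN' hI IH hB

end Pool.Agent.Helper36.CWid
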