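import Pool.Agent.Helper36.CWid.Defs
import Pool.Agent.Helper36.CWid.MainDec

namespace Pool.Agent.Helper36.CWid

open Finset Classical

lemma joinGraph_adj {V : Type} {k : ℕ} {l : V → Fin k} {i j : Fin k} {u v : V} :
    (joinGraph l i j).Adj u v ↔ u ≠ v ∧ ((l u = i ∧ l v = j) ∨ (l v = i ∧ l u = j)) := by
  unfold joinGraph
  rw [SimpleGraph.fromRel_adj]

lemma Built.perm {k : ℕ} (σ : Equiv.Perm (Fin k)) {V : Type} {G : SimpleGraph V} {l : V → Fin k}
    (h : Built k V G l) : Built k V G (σ ∘ l) := by
  induction h with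
  | vertex i => exact Built.vertex (σ i)
  | @union V W G H l m _ _ ih1 ih2 =>
    have := Built.union ih1 ih2
    have e : σ ∘ (Sum.elim l m) = Sum.elim (σ ∘ l) (σ ∘ m) := by
      funext x
      rcases x with x | x <;> rfl
    rw [e]
    exact this
  | @join V G l i j hij _ ih =>
    have := Built.join (σ i) (σ j) (fun h => hij (σ.injective h)) ih
    have e : joinGraph (σ ∘ l) (σ i) (σ j) = joinGraph l i j := by
      ext u v
      rw [joinGraph_adj, joinGraph_adj]
      simp only [Function.comp_apply, σ.injective.eq_iff]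
    rw [e] at this
    exact this
  | @rename V G l i j _ ih =>
    have := Built.rename (σ i) (σ j) ih
    have e : σ ∘ (fun v => if l v = i then j else l v) =
        fun v => if (σ ∘ l) v = σ i then σ j else (σ ∘ l) v := by
      funext v
      simp only [Function.comp_apply, σ.injective.eq_iff]
      split_ifs <;> rfl
    rw [e]
    exact this
  | @iso V W G H l m e hm _ ih =>
    exact Built.iso e (fun v => by simp only [Function.comp_apply, hm v]) ih

/-- Join all pairs of labels in `P`. -/
def joinAll {V : Type} {k : ℕ} (l : V → Fin k) (P : Finset (Fin k × Fin k)) : SimpleGraph V :=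
  SimpleGraph.fromRel (fun u v => (l u, l v) ∈ P)

lemma Built.joinAll {k : ℕ} {V : Type} {G : SimpleGraph V} {l : V → Fin k}
    (h : Built k V G l) (P : Finset (Fin k × Fin k)) (hP : ∀ p ∈ P, p.1 ≠ p.2) :
    Built k V (G ⊔ joinAll l P) l := by
  induction P using Finset.induction_on with
  | empty =>
    have e : G ⊔ CWid.joinAll l ∅ = G := by
      ext u v
      simp [CWid.joinAll]
    rw [e]
    exact h
  | insert p P hp ih =>
    have h1 := ih (fun q hq => hP q (mem_insert_of_mem hq))
    have h2 := Built.join p.1 p.2 (hP p (mem_insert_self _ _)) h1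
    have e : G ⊔ CWid.joinAll l (insert p P) = G ⊔ CWid.joinAll l P ⊔ joinGraph l p.1 p.2 := by
      ext u v
      simp only [CWid.joinAll, SimpleGraph.sup_adj, SimpleGraph.fromRel_adj, mem_insert,
        joinGraph_adj, Prod.ext_iff]
      tauto
    rw [e]
    exact h2

lemma Built.relabel {k : ℕ} {V : Type} {G : SimpleGraph V} {l : V → Fin k}
    (h : Built k V G l) (φ : Fin k → Fin k) (hφ : ∀ i, φ (φ i) = φ i) :
    Built k V G (fun v => φ (l v)) := by
  have key : ∀ T : Finset (Fin k), (∀ i ∈ T, φ i ≠ i) →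
      Built k V G (fun v => if l v ∈ T then φ (l v) else l v) := by
    intro T
    induction T using Finset.induction_on with
    | empty =>
      intro _
      simpa using h
    | insert i T hi ih =>
      intro hT
      have h1 := ih (fun j hj => hT j (mem_insert_of_mem hj))
      have h2 := Built.rename i (φ i) h1
      have e : (fun v => if l v ∈ insert i T then φ (l v) else l v) =
          fun v => if (if l v ∈ T then φ (l v) else l v) = i then φ i else
            (if l v ∈ T then φ (l v) else l v) := by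
        funext v
        have hii := hT i (mem_insert_self _ _)
        by_cases h3 : l v ∈ T
        · have h4 : φ (l v) ≠ i := by
            intro h5
            have := hφ (l v)
            rw [h5] at this
            exact hii this
          simp only [mem_insert, h3, or_true, if_true, h4, if_false]
        · by_cases h4 : l v = i
          · simp only [mem_insert, h4, true_or, if_true]
            rw [h4] at h3
            simp [h3]
          · simp only [mem_insert, h3, h4, or_false, if_false]
      rw [e]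
      exact h2
  have h1 := key (univ.filter (fun i => φ i ≠ i)) (fun i hi => (mem_filter.mp hi).2)
  have e : (fun v => φ (l v)) = fun v => if l v ∈ univ.filter (fun i => φ i ≠ i) then φ (l v)
      else l v := by
    funext v
    by_cases h2 : φ (l v) = l v
    · simp [h2]
    · simp [h2]
  rw [e]
  exact h1

lemma exists_perm_disjoint {K : ℕ} (S T : Finset (Fin (2 * K))) (hS : S.card ≤ K)
    (hT : T.card ≤ K) : ∃ σ : Equiv.Perm (Fin (2 * K)), ∀ i ∈ T, σ i ∉ S := by
  have h1 : T.card ≤ (univ \ S).card := by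
    rw [card_sdiff_of_subset (subset_univ _), card_univ, Fintype.card_fin]
    omega
  obtain ⟨T', hT', hcard⟩ := exists_subset_card_eq h1
  have e : {x // x ∈ T} ≃ {x // x ∈ T'} := Fintype.equivOfCardEq (by simp [hcard])
  refine ⟨e.extendSubtype, fun i hi => ?_⟩
  have := e.extendSubtype_mem i hi
  exact (mem_sdiff.mp (hT' this)).2

/-- One-type version of the decompositions. -/
inductive DecG {V : Type} (G : SimpleGraph V) (K : ℕ) : Set V → Prop
  | single (v : V) : DecG G K {v}
  | union (X Y : Set V) : DecG G K X → DecG G K Y → Disjoint X Y →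
      ((fun v => {w | w ∉ X ∪ Y ∧ G.Adj v w}) '' (X ∪ Y)).ncard ≤ K → DecG G K (X ∪ Y)

lemma built_of_decG {V : Type} [Finite V] {G : SimpleGraph V} {K : ℕ} (hK : 1 ≤ K) {X : Set V}
    (h : DecG G K X) : ∃ l : V → Fin (2 * K),
      Built (2 * K) X (G.induce X) (fun v => l v.1) ∧
      (∀ u ∈ X, ∀ v ∈ X, l u = l v → ∀ w, w ∉ X → (G.Adj u w ↔ G.Adj v w)) ∧
      (l '' X).ncard ≤ K := by
  induction h with
  | single v =>
    refine ⟨fun _ => ⟨0, by omega⟩, ?_, ?_, ?_⟩
    · let e : Unit ≃ ({v} : Set V) := ⟨fun _ => ⟨v, rfl⟩, fun _ => (), fun _ => rfl, fun x => by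
        apply Subtype.ext
        exact x.2.symm⟩
      have e' : (⊥ : SimpleGraph Unit) ≃g G.induce ({v} : Set V) := ⟨e, by
        intro a b
        simp only [SimpleGraph.comap_adj, SimpleGraph.bot_adj, iff_false]
        exact fun h => G.loopless.irrefl _ h⟩
      exact Built.iso e' (fun _ => rfl) (Built.vertex _)
    · intro u hu u' hu' _ w _
      rw [Set.mem_singleton_iff.mp hu, Set.mem_singleton_iff.mp hu']
    · rw [Set.image_singleton, Set.ncard_singleton]
      exact hK
  | union X Y _ _ hdisj hcard ih1 ih2 =>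
    obtain ⟨lX, hbX, hcX, hnX⟩ := ih1
    obtain ⟨lY0, hbY0, hcY0, hnY0⟩ := ih2
    have hfin : ∀ (l : V → Fin (2 * K)) (Z : Set V), (l '' Z).Finite := fun l Z => Set.toFinite _
    obtain ⟨σ, hσ⟩ := exists_perm_disjoint (hfin lX X).toFinset (hfin lY0 Y).toFinset
      (by rw [← Set.ncard_eq_toFinset_card]; exact hnX)
      (by rw [← Set.ncard_eq_toFinset_card]; exact hnY0)
    let lY : V → Fin (2 * K) := fun v => σ (lY0 v)
    have hbY : Built (2 * K) Y (G.induce Y) (fun v => lY v.1) := hbY0.perm σ
    have hcY : ∀ u ∈ Y, ∀ v ∈ Y, lY u = lY v → ∀ w, w ∉ Y → (G.Adj u w ↔ G.Adj v w) :=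
      fun u hu v hv h => hcY0 u hu v hv (σ.injective h)
    have hXY : ∀ u ∈ X, ∀ v ∈ Y, lX u ≠ lY v := by
      intro u hu v hv heq
      have h1 := hσ (lY0 v) (by
        rw [Set.Finite.mem_toFinset]
        exact ⟨v, hv, rfl⟩)
      apply h1
      rw [Set.Finite.mem_toFinset]
      exact ⟨u, hu, heq⟩
    have hnotY : ∀ u, u ∈ X → u ∉ Y := fun u hu hu' => Set.disjoint_left.mp hdisj hu hu'
    have hnotX : ∀ u, u ∈ Y → u ∉ X := fun u hu hu' => Set.disjoint_left.mp hdisj hu' hu
    -- the combined labelling
    let L : V → Fin (2 * K) := fun v => if v ∈ X then lX v else lY v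
    have hLX : ∀ u, u ∈ X → L u = lX u := fun u hu => if_pos hu
    have hLY : ∀ u, u ∈ Y → L u = lY u := fun u hu => if_neg (hnotX u hu)
    let P : Finset (Fin (2 * K) × Fin (2 * K)) := univ.filter (fun p => ∃ u ∈ X, ∃ v ∈ Y,
      lX u = p.1 ∧ lY v = p.2 ∧ G.Adj u v)
    have hU := (Built.union hbX hbY).joinAll P (by
      intro p hp
      obtain ⟨-, u, hu, v, hv, h1, h2, -⟩ := mem_filter.mp hp
      rw [← h1, ← h2]
      exact hXY u hu v hv)
    have hcross : ∀ u (hu : u ∈ X) v (hv : v ∈ Y), (lX u, lY v) ∈ P ↔ G.Adj u v := by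
      intro u hu v hv
      constructor
      · intro h
        obtain ⟨-, u', hu', v', hv', h1, h2, h3⟩ := mem_filter.mp h
        have q1 := (hcX u' hu' u hu h1 v' (hnotX v' hv')).mp h3
        have q2 := (hcY v' hv' v hv h2 u (hnotY u hu)).mp q1.symm
        exact q2.symm
      · intro h
        exact mem_filter.mpr ⟨mem_univ _, u, hu, v, hv, rfl, rfl, h⟩
    have hnXX : ∀ u (hu : u ∈ X) v (hv : v ∈ X), (lX u, lX v) ∉ P := by
      intro u hu v hv h
      obtain ⟨-, u', hu', v', hv', h1, h2, h3⟩ := mem_filter.mp h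
      exact hXY v hv v' hv' h2.symm
    have hnYY : ∀ u (hu : u ∈ Y) v (hv : v ∈ Y), (lY u, lY v) ∉ P := by
      intro u hu v hv h
      obtain ⟨-, u', hu', v', hv', h1, h2, h3⟩ := mem_filter.mp h
      exact hXY u' hu' u hu h1
    have hnYX : ∀ u (hu : u ∈ Y) v (hv : v ∈ X), (lY u, lX v) ∉ P := by
      intro u hu v hv h
      obtain ⟨-, u', hu', v', hv', h1, h2, h3⟩ := mem_filter.mp h
      exact hXY v hv v' hv' h2.symm
    -- classes of the union
    let cls : V → Set V := fun v => {w | w ∉ X ∪ Y ∧ G.Adj v w}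
    have hcls : ∀ u ∈ X ∪ Y, ∀ v ∈ X ∪ Y, L u = L v → cls u = cls v := by
      intro u hu v hv hL
      ext w
      simp only [cls, Set.mem_ofPred_eq]
      have key : w ∉ X ∪ Y → (G.Adj u w ↔ G.Adj v w) := by
        intro hw
        have hwX : w ∉ X := fun h => hw (Or.inl h)
        have hwY : w ∉ Y := fun h => hw (Or.inr h)
        rcases hu with hu | hu <;> rcases hv with hv | hv
        · rw [hLX u hu, hLX v hv] at hL
          exact hcX u hu v hv hL w hwX
        · rw [hLX u hu, hLY v hv] at hL
          exact absurd hL (hXY u hu v hv)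
        · rw [hLY u hu, hLX v hv] at hL
          exact absurd hL.symm (hXY v hv u hu)
        · rw [hLY u hu, hLY v hv] at hL
          exact hcY u hu v hv hL w hwY
      constructor
      · rintro ⟨h1, h2⟩
        exact ⟨h1, (key h1).mp h2⟩
      · rintro ⟨h1, h2⟩
        exact ⟨h1, (key h1).mpr h2⟩
    -- representatives
    have hr : ∀ c : Set V, ∃ v : V, c ∈ cls '' (X ∪ Y) → (v ∈ X ∪ Y ∧ cls v = c) := by
      intro c
      by_cases hc : c ∈ cls '' (X ∪ Y)
      · obtain ⟨v, hv, hvc⟩ := hc
        exact ⟨v, fun _ => ⟨hv, hvc⟩⟩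
      · by_cases hV : Nonempty V
        · exact ⟨hV.some, fun h => absurd h hc⟩
        · exfalso
          -- X is nonempty, hence V is nonempty
          apply hV
          by_contra hVe
          have hXe : IsEmpty V := not_nonempty_iff.mp hVe
          -- a built graph has a vertex
          have hb : ∀ {k : ℕ} {W : Type} {H : SimpleGraph W} {m : W → Fin k}, Built k W H m →
              Nonempty W := by
            intro k W H m hB
            induction hB with
            | vertex i => exact ⟨()⟩
            | union _ _ ih1 ih2 => exact ⟨Sum.inl ih1.some⟩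
            | join i j _ _ ih => exact ih
            | rename i j _ ih => exact ih
            | iso e _ _ ih => exact ⟨e ih.some⟩
          exact hXe.false (hb hbX).some.1
    choose r hr using hr
    have hrmem : ∀ v ∈ X ∪ Y, r (cls v) ∈ X ∪ Y := fun v hv => (hr _ ⟨v, hv, rfl⟩).1
    have hrcls : ∀ v ∈ X ∪ Y, cls (r (cls v)) = cls v := fun v hv => (hr _ ⟨v, hv, rfl⟩).2
    have hrep : ∀ i : Fin (2 * K), ∃ v : V, i ∈ L '' (X ∪ Y) → (v ∈ X ∪ Y ∧ L v = i) := by
      intro i
      by_cases hc : i ∈ L '' (X ∪ Y)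
      · obtain ⟨v, hv, hvc⟩ := hc
        exact ⟨v, fun _ => ⟨hv, hvc⟩⟩
      · exact ⟨r ∅, fun h => absurd h hc⟩
    choose rep hrep using hrep
    let φ : Fin (2 * K) → Fin (2 * K) := fun i =>
      if i ∈ L '' (X ∪ Y) then L (r (cls (rep i))) else i
    have hφL : ∀ v ∈ X ∪ Y, φ (L v) = L (r (cls v)) := by
      intro v hv
      have hmem : L v ∈ L '' (X ∪ Y) := ⟨v, hv, rfl⟩
      obtain ⟨h1, h2⟩ := hrep _ hmem
      simp only [φ]
      rw [if_pos hmem, hcls _ h1 v hv h2]
    have hφφ : ∀ i, φ (φ i) = φ i := by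
      intro i
      by_cases hi : i ∈ L '' (X ∪ Y)
      · obtain ⟨v, hv, rfl⟩ := hi
        rw [hφL v hv, hφL _ (hrmem v hv), hrcls v hv]
      · have : φ i = i := if_neg hi
        rw [this, this]
    have hR := hU.relabel φ hφφ
    refine ⟨fun v => φ (L v), ?_, ?_, ?_⟩
    · let e : (X ⊕ Y : Type) ≃ (X ∪ Y : Set V) := (Equiv.Set.union hdisj).symm
      have heX : ∀ x : X, ((e (Sum.inl x) : (X ∪ Y : Set V)) : V) = x.1 := by
        intro x
        simp [e]
      have heY : ∀ x : Y, ((e (Sum.inr x) : (X ∪ Y : Set V)) : V) = x.1 := by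
        intro x
        simp [e]
      let e' : ((G.induce X).sum (G.induce Y)) ⊔
          CWid.joinAll (Sum.elim (fun v : X => lX v.1) (fun v : Y => lY v.1)) P ≃g
          G.induce (X ∪ Y) := ⟨e, by
        intro a b
        rw [SimpleGraph.comap_adj, SimpleGraph.sup_adj]
        simp only [CWid.joinAll, SimpleGraph.fromRel_adj, Function.Embedding.subtype_apply]
        rcases a with a | a <;> rcases b with b | b
        · rw [heX, heX]
          simp only [SimpleGraph.sum_adj, Sum.elim_inl, SimpleGraph.comap_adj,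
            Function.Embedding.subtype_apply]
          have q1 := hnXX a.1 a.2 b.1 b.2
          have q2 := hnXX b.1 b.2 a.1 a.2
          tauto
        · rw [heX, heY]
          simp only [SimpleGraph.sum_adj, Sum.elim_inl, Sum.elim_inr]
          have q1 := hcross a.1 a.2 b.1 b.2
          have q2 := hnYX b.1 b.2 a.1 a.2
          have q3 : (Sum.inl a : (X ⊕ Y : Type)) ≠ Sum.inr b := by simp
          tauto
        · rw [heX, heY]
          simp only [SimpleGraph.sum_adj, Sum.elim_inl, Sum.elim_inr]
          have q1 := hcross b.1 b.2 a.1 a.2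
          have q2 := hnYX a.1 a.2 b.1 b.2
          have q3 : (Sum.inr a : (X ⊕ Y : Type)) ≠ Sum.inl b := by simp
          have q4 := G.adj_comm a.1 b.1
          tauto
        · rw [heY, heY]
          simp only [SimpleGraph.sum_adj, Sum.elim_inr, SimpleGraph.comap_adj,
            Function.Embedding.subtype_apply]
          have q1 := hnYY a.1 a.2 b.1 b.2
          have q2 := hnYY b.1 b.2 a.1 a.2
          tauto⟩
      refine Built.iso e' ?_ hR
      intro v
      rcases v with v | v
      · change φ (L (e (Sum.inl v)).1) = φ (lX v.1)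
        rw [heX, hLX v.1 v.2]
      · change φ (L (e (Sum.inr v)).1) = φ (lY v.1)
        rw [heY, hLY v.1 v.2]
    · intro u hu v hv h w hw
      have h' : φ (L u) = φ (L v) := h
      rw [hφL u hu, hφL v hv] at h'
      have h1 := hcls _ (hrmem u hu) _ (hrmem v hv) h'
      rw [hrcls u hu, hrcls v hv] at h1
      have h2 := Set.ext_iff.mp h1 w
      simp only [cls, Set.mem_ofPred_eq] at h2
      constructor
      · intro hh
        exact (h2.mp ⟨hw, hh⟩).2
      · intro hh
        exact (h2.mpr ⟨hw, hh⟩).2
    · refine le_trans ?_ hcard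
      have : (fun v => φ (L v)) '' (X ∪ Y) ⊆ (fun c => L (r c)) '' (cls '' (X ∪ Y)) := by
        rintro _ ⟨v, hv, rfl⟩
        exact ⟨cls v, ⟨v, hv, rfl⟩, (hφL v hv).symm⟩
      refine (Set.ncard_le_ncard this (Set.toFinite _)).trans ?_
      exact Set.ncard_image_le (Set.toFinite _)

end Pool.Agent.Helper36.CWid
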