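import Pool.Agent.Helper36.CWid.Expr

namespace Pool.Agent.Helper36.CWid

open Finset Classical

/-- A bipartite graph presented by a relation. -/
structure Pres {A B V : Type} (R : A → B → Prop) (G : SimpleGraph V) (iA : A → V) (iB : B → V) :
    Prop where
  injA : Function.Injective iA
  injB : Function.Injective iB
  disj : ∀ a b, iA a ≠ iB b
  cov : ∀ v, (∃ a, iA a = v) ∨ ∃ b, iB b = v
  nA : ∀ a a', ¬ G.Adj (iA a) (iA a')
  nB : ∀ b b', ¬ G.Adj (iB b) (iB b')
  hR : ∀ a b, R a b ↔ G.Adj (iA a) (iB b)

section Bip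

variable {A B V : Type} [Fintype A] [Fintype B] {R : A → B → Prop} {G : SimpleGraph V}
  {iA : A → V} {iB : B → V}

lemma decG_of_dec (hP : Pres R G iA iB) {N : ℕ} {XA : Finset A} {XB : Finset B}
    (h : Dec R N univ univ XA XB) : DecG G (2 * N) (iA '' XA ∪ iB '' XB) := by
  have memA : ∀ (XA : Finset A) (XB : Finset B) (a : A),
      iA a ∈ (iA '' XA ∪ iB '' XB : Set V) ↔ a ∈ XA := by
    intro XA XB a
    constructor
    · rintro (⟨a', ha', h⟩ | ⟨b, hb, h⟩)
      · rw [← hP.injA h]
        exact ha'
      · exact absurd h.symm (hP.disj a b)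
    · intro h
      exact Or.inl ⟨a, h, rfl⟩
  have memB : ∀ (XA : Finset A) (XB : Finset B) (b : B),
      iB b ∈ (iA '' XA ∪ iB '' XB : Set V) ↔ b ∈ XB := by
    intro XA XB b
    constructor
    · rintro (⟨a, ha, h⟩ | ⟨b', hb', h⟩)
      · exact absurd h (hP.disj a b)
      · rw [← hP.injB h]
        exact hb'
    · intro h
      exact Or.inr ⟨b, h, rfl⟩
  induction h with
  | leafA a =>
    have : (iA '' ({a} : Finset A) ∪ iB '' (∅ : Finset B) : Set V) = {iA a} := by simp
    rw [this]
    exact DecG.single _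
  | leafB b =>
    have : (iA '' (∅ : Finset A) ∪ iB '' ({b} : Finset B) : Set V) = {iB b} := by simp
    rw [this]
    exact DecG.single _
  | node XA YA XB YB _ _ hA hB hcA hcB ih1 ih2 =>
    have hun : (iA '' (XA ∪ YA : Finset A) ∪ iB '' (XB ∪ YB : Finset B) : Set V) =
        (iA '' XA ∪ iB '' XB) ∪ (iA '' YA ∪ iB '' YB) := by
      rw [coe_union, coe_union, Set.image_union, Set.image_union]
      ext v
      simp only [Set.mem_union]
      tauto
    rw [hun]
    refine DecG.union _ _ ih1 ih2 ?_ ?_
    · rw [Set.disjoint_left]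
      rintro v (⟨a, ha, rfl⟩ | ⟨b, hb, rfl⟩) h
      · rw [memA] at h
        exact disjoint_left.mp hA ha h
      · rw [memB] at h
        exact disjoint_left.mp hB hb h
    · rw [← hun]
      have hsub : (fun v => {w | w ∉ (iA '' (XA ∪ YA : Finset A) ∪ iB '' (XB ∪ YB : Finset B) :
          Set V) ∧ G.Adj v w}) '' (iA '' (XA ∪ YA : Finset A) ∪ iB '' (XB ∪ YB : Finset B)) ⊆
          ((fun T : Finset B => iB '' (T : Set B)) ''
            (clA R univ (XB ∪ YB) (XA ∪ YA) : Set (Finset B))) ∪
          ((fun T : Finset A => iA '' (T : Set A)) ''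
            (clB R univ (XA ∪ YA) (XB ∪ YB) : Set (Finset A))) := by
        rintro _ ⟨v, hv, rfl⟩
        rcases hv with ⟨a, ha, rfl⟩ | ⟨b, hb, rfl⟩
        · left
          refine ⟨_, mem_coe.mpr (mem_image_of_mem _ ha), ?_⟩
          ext w
          simp only [Set.mem_image, mem_coe, mem_filter, mem_sdiff, mem_univ, true_and]
          constructor
          · rintro ⟨b, ⟨hb, hab⟩, rfl⟩
            exact ⟨fun h => hb ((memB _ _ b).mp h), (hP.hR a b).mp hab⟩
          · rintro ⟨hw, haw⟩
            rcases hP.cov w with ⟨a', rfl⟩ | ⟨b', rfl⟩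
            · exact absurd haw (hP.nA _ _)
            · exact ⟨b', ⟨fun h => hw ((memB _ _ b').mpr h), (hP.hR a b').mpr haw⟩, rfl⟩
        · right
          refine ⟨_, mem_coe.mpr (mem_image_of_mem _ hb), ?_⟩
          ext w
          simp only [Set.mem_image, mem_coe, mem_filter, mem_sdiff, mem_univ, true_and]
          constructor
          · rintro ⟨a, ⟨ha, hab⟩, rfl⟩
            exact ⟨fun h => ha ((memA _ _ a).mp h), ((hP.hR a b).mp hab).symm⟩
          · rintro ⟨hw, haw⟩
            rcases hP.cov w with ⟨a', rfl⟩ | ⟨b', rfl⟩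
            · exact ⟨a', ⟨fun h => hw ((memA _ _ a').mpr h), (hP.hR a' b).mpr haw.symm⟩, rfl⟩
            · exact absurd haw (hP.nB _ _)
      refine (Set.ncard_le_ncard hsub (Set.toFinite _)).trans ?_
      refine (Set.ncard_union_le _ _).trans ?_
      have h1 := Set.ncard_image_le (f := fun T : Finset B => iB '' (T : Set B))
        (s := (clA R univ (XB ∪ YB) (XA ∪ YA) : Set (Finset B))) (Set.toFinite _)
      have h2 := Set.ncard_image_le (f := fun T : Finset A => iA '' (T : Set A))
        (s := (clB R univ (XA ∪ YA) (XB ∪ YB) : Set (Finset A))) (Set.toFinite _)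
      rw [Set.ncard_coe_finset] at h1 h2
      omega

end Bip

/-- Embedding of `E_t`. -/
lemma embedE {V : Type} {G : SimpleGraph V} {col : V → Bool}
    (hcol : ∀ u v, G.Adj u v → col u ≠ col v) {t : ℕ} (ht : 1 ≤ t) {c a' a'' b' b'' : V}
    (F : Finset V) (hF : t ≤ F.card) (h1 : col a' = col c) (h2 : col a'' = col c)
    (c1 : G.Adj c b') (c2 : G.Adj c b'') (c3 : G.Adj a' b') (c4 : ¬ G.Adj a' b'')
    (c5 : G.Adj a'' b'') (c6 : ¬ G.Adj a'' b')
    (hFF : ∀ b ∈ F, G.Adj c b ∧ ¬ G.Adj a' b ∧ ¬ G.Adj a'' b) : Nonempty (graphE t ↪g G) := by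
  obtain ⟨F', hF', hcard⟩ := exists_subset_card_eq (show t - 1 ≤ F.card by omega)
  let e : Fin (t - 1) ≃ F' := (Fintype.equivFinOfCardEq (by simp [hcard])).symm
  have hsame : ∀ {u v : V}, col u = col v → ¬ G.Adj u v := fun h hh => hcol _ _ hh h
  let lf : Fin (t + 1) → V := fun i => if h0 : i.val = 0 then b' else if h1 : i.val = 1 then b''
    else (e ⟨i.val - 2, by omega⟩).1
  have hlf0 : ∀ i : Fin (t + 1), i.val = 0 → lf i = b' := fun i hi => by
    simp only [lf]; rw [dif_pos hi]
  have hlf1 : ∀ i : Fin (t + 1), i.val = 1 → lf i = b'' := fun i hi => by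
    simp only [lf]; rw [dif_neg (by omega), dif_pos hi]
  have hlf2 : ∀ i : Fin (t + 1), (hi : 2 ≤ i.val) → lf i = (e ⟨i.val - 2, by omega⟩).1 :=
    fun i hi => by simp only [lf]; rw [dif_neg (by omega), dif_neg (by omega)]
  have hlfF : ∀ i : Fin (t + 1), 2 ≤ i.val → lf i ∈ F := fun i hi => by
    rw [hlf2 i hi]
    exact hF' (e _).2
  have hcm : ∀ i, G.Adj c (lf i) := by
    intro i
    rcases Nat.lt_or_ge i.val 2 with h | h
    · interval_cases hi : i.val
      · rw [hlf0 i hi]; exact c1
      · rw [hlf1 i hi]; exact c2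
    · exact (hFF _ (hlfF i h)).1
  let tp : Fin 2 → V := fun j => if j.val = 0 then a' else a''
  have htp : ∀ (i : Fin (t + 1)) (j : Fin 2), (G.Adj (lf i) (tp j) ↔ i.val = j.val) := by
    intro i j
    rcases Nat.lt_or_ge i.val 2 with h | h
    · fin_cases j
      · simp only [tp, Fin.zero_eta, Fin.val_zero, if_true]
        interval_cases hi : i.val
        · rw [hlf0 i hi]
          simp [c3.symm]
        · rw [hlf1 i hi]
          simp only [one_ne_zero, iff_false]
          exact fun hh => c4 hh.symm
      · simp only [tp, Fin.mk_one, Fin.val_one, one_ne_zero, if_false]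
        interval_cases hi : i.val
        · rw [hlf0 i hi]
          simp only [zero_ne_one, iff_false]
          exact fun hh => c6 hh.symm
        · rw [hlf1 i hi]
          simp [c5.symm]
    · have h3 := hFF _ (hlfF i h)
      have h4 : i.val ≠ j.val := by omega
      simp only [h4, iff_false]
      intro hh
      simp only [tp] at hh
      split_ifs at hh
      · exact h3.2.1 hh.symm
      · exact h3.2.2 hh.symm
  have hmidcol : ∀ i, col (lf i) ≠ col c := fun i => (hcol _ _ (hcm i)).symm
  have htipcol : ∀ j, col (tp j) = col c := by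
    intro j
    simp only [tp]
    split_ifs
    · exact h1
    · exact h2
  have hmm : ∀ i i', ¬ G.Adj (lf i) (lf i') := by
    intro i i'
    apply hsame
    have q1 := hmidcol i
    have q2 := hmidcol i'
    revert q1 q2
    cases col (lf i) <;> cases col (lf i') <;> cases col c <;> simp
  have htt : ∀ j j', ¬ G.Adj (tp j) (tp j') := by
    intro j j'
    apply hsame
    rw [htipcol, htipcol]
  have hct : ∀ j, ¬ G.Adj c (tp j) := by
    intro j
    apply hsame
    rw [htipcol]
  let g : EVert t → V := fun v => match v with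
    | .centre => c
    | .mid i => lf i
    | .tip j => tp j
  have hmid_inj : ∀ i i', lf i = lf i' → i = i' := by
    intro i i' h
    have q : ∀ j : Fin 2, i.val = j.val ↔ i'.val = j.val := fun j => by
      rw [← htp i j, ← htp i' j, h]
    have q0 := q 0
    have q1 := q 1
    simp only [Fin.val_zero, Fin.val_one] at q0 q1
    rcases Nat.lt_or_ge i.val 2 with h3 | h3
    · apply Fin.ext
      omega
    · have h4 : 2 ≤ i'.val := by omega
      rw [hlf2 i h3, hlf2 i' h4] at h
      have h5 := e.injective (Subtype.ext h)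
      rw [Fin.mk.injEq] at h5
      apply Fin.ext
      omega
  have hne : (⟨0, by omega⟩ : Fin (t + 1)) ≠ ⟨1, by omega⟩ := by simp
  have htip_inj : ∀ j j', tp j = tp j' → j = j' := by
    intro j j' h
    have q : ∀ i : Fin (t + 1), i.val = j.val ↔ i.val = j'.val := fun i => by
      rw [← htp i j, ← htp i j', h]
    have q0 := q ⟨j.val, by omega⟩
    exact Fin.ext (q0.mp rfl)
  have hcne : ∀ j, c ≠ tp j := by
    intro j h
    have q : ∀ i : Fin (t + 1), i.val = j.val := fun i => by
      rw [← htp i j, ← h]
      exact (hcm i).symm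
    have q0 := q ⟨0, by omega⟩
    have q1 := q ⟨1, by omega⟩
    simp only at q0 q1
    omega
  have hcm' : ∀ i, c ≠ lf i := fun i h => hmidcol i (by rw [← h])
  have hmt : ∀ i j, lf i ≠ tp j := fun i j h => hmidcol i (by rw [h, htipcol])
  refine ⟨⟨⟨g, ?_⟩, ?_⟩⟩
  · intro u v huv
    rcases u with _ | i | j <;> rcases v with _ | i' | j'
    · rfl
    · exact absurd huv (hcm' i')
    · exact absurd huv (hcne j')
    · exact absurd huv.symm (hcm' i)
    · rw [hmid_inj i i' huv]
    · exact absurd huv (hmt i j')
    · exact absurd huv.symm (hcne j)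
    · exact absurd huv.symm (hmt i' j)
    · rw [htip_inj j j' huv]
  · intro u v
    change G.Adj (g u) (g v) ↔ (graphE t).Adj u v
    unfold graphE
    rw [SimpleGraph.fromRel_adj]
    rcases u with _ | i | j <;> rcases v with _ | i' | j'
    · simp [g]
    · simp only [g, ne_eq, reduceCtorEq, not_false_eq_true, true_and, EVert.mid.injEq, exists_eq',
        false_and, and_false, exists_false, or_false, iff_true]
      exact hcm i'
    · simp only [g, ne_eq, reduceCtorEq, not_false_eq_true, true_and, false_and, and_false,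
        exists_false, or_self, iff_false]
      exact hct j'
    · simp only [g, ne_eq, reduceCtorEq, not_false_eq_true, true_and, EVert.mid.injEq, exists_eq',
        false_and, and_false, exists_false, or_false, false_or, iff_true]
      exact (hcm i).symm
    · simp only [g, ne_eq, reduceCtorEq, false_and, and_false, exists_false, or_self, iff_false]
      exact hmm i i'
    · simp only [g, ne_eq, reduceCtorEq, not_false_eq_true, true_and, EVert.mid.injEq,
        EVert.tip.injEq, false_and, and_false, exists_false, or_false, false_or]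
      rw [htp i j']
      constructor
      · intro h
        exact ⟨i, j', h, rfl, rfl⟩
      · rintro ⟨i1, j1, h, rfl, rfl⟩
        exact h
    · simp only [g, ne_eq, reduceCtorEq, not_false_eq_true, true_and, false_and, and_false,
        exists_false, or_self, iff_false]
      exact fun h => hct j h.symm
    · simp only [g, ne_eq, reduceCtorEq, not_false_eq_true, true_and, EVert.mid.injEq,
        EVert.tip.injEq, false_and, and_false, exists_false, or_false, false_or]
      rw [G.adj_comm, htp i' j]
      constructor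
      · intro h
        exact ⟨i', j, h, rfl, rfl⟩
      · rintro ⟨i1, j1, h, rfl, rfl⟩
        exact h
    · simp only [g, ne_eq, reduceCtorEq, false_and, and_false, exists_false, or_self, iff_false]
      exact htt j j'

/-- Adjacency in a cycle, in terms of values. -/
lemma cycle_adj_val {m : ℕ} (hm : 2 ≤ m) {u v : Fin m} : (SimpleGraph.cycleGraph m).Adj u v ↔
    (u.val = v.val + 1 ∨ v.val = u.val + 1 ∨ (u.val = 0 ∧ v.val = m - 1) ∨
      (v.val = 0 ∧ u.val = m - 1)) := by
  have hval : ∀ a b : Fin m, (a - b).val = if b.val ≤ a.val then a.val - b.val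
      else m - b.val + a.val := by
    intro a b
    rw [Fin.sub_def]
    simp only
    split_ifs with h
    · have : m - b.val + a.val = (a.val - b.val) + m := by omega
      rw [this, Nat.add_mod_right, Nat.mod_eq_of_lt (by omega)]
    · rw [Nat.mod_eq_of_lt (by omega)]
  rw [SimpleGraph.cycleGraph_adj', hval, hval]
  split_ifs <;> omega

lemma noCyc_of_chordal {A B V : Type} {R : A → B → Prop} {G : SimpleGraph V} {iA : A → V}
    {iB : B → V} (hP : Pres R G iA iB)
    (hG : ∀ n, 6 ≤ n → ¬ Nonempty (SimpleGraph.cycleGraph n ↪g G)) : NoCyc R := by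
  intro n x y h
  apply hG (2 * (n + 3)) (by omega)
  let f : Fin (2 * (n + 3)) → V := fun k => if k.val % 2 = 0 then iB (y (k.val / 2)) else
    iA (x (k.val / 2))
  have hadj : ∀ u v : Fin (2 * (n + 3)), G.Adj (f u) (f v) ↔
      (SimpleGraph.cycleGraph (2 * (n + 3))).Adj u v := by
    intro u v
    rw [cycle_adj_val (by omega)]
    have hu := u.isLt
    have hv := v.isLt
    simp only [f]
    by_cases h1 : u.val % 2 = 0
    · by_cases h2 : v.val % 2 = 0
      · rw [if_pos h1, if_pos h2]
        have := hP.nB (y (u.val / 2)) (y (v.val / 2))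
        simp only [this, false_iff]
        omega
      · rw [if_pos h1, if_neg h2, G.adj_comm, ← hP.hR, h _ _ (by omega) (by omega)]
        omega
    · by_cases h2 : v.val % 2 = 0
      · rw [if_neg h1, if_pos h2, ← hP.hR, h _ _ (by omega) (by omega)]
        omega
      · rw [if_neg h1, if_neg h2]
        have := hP.nA (x (u.val / 2)) (x (v.val / 2))
        simp only [this, false_iff]
        omega
  have hinj : Function.Injective f := by
    intro u v huv
    have hu := u.isLt
    have hv := v.isLt
    by_cases h1 : u.val % 2 = 0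
    · by_cases h2 : v.val % 2 = 0
      · simp only [f] at huv
        rw [if_pos h1, if_pos h2] at huv
        have hy := hP.injB huv
        have q1 := (h (u.val / 2) (u.val / 2) (by omega) (by omega)).mpr (Or.inl rfl)
        have q2 := (h (v.val / 2) (v.val / 2) (by omega) (by omega)).mpr (Or.inl rfl)
        rw [hy] at q1
        rw [← hy] at q2
        have r1 := (h _ _ (by omega) (by omega)).mp q1
        have r2 := (h _ _ (by omega) (by omega)).mp q2
        apply Fin.ext
        omega
      · simp only [f] at huv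
        rw [if_pos h1, if_neg h2] at huv
        exact absurd huv.symm (hP.disj _ _)
    · by_cases h2 : v.val % 2 = 0
      · simp only [f] at huv
        rw [if_neg h1, if_pos h2] at huv
        exact absurd huv (hP.disj _ _)
      · simp only [f] at huv
        rw [if_neg h1, if_neg h2] at huv
        have hx := hP.injA huv
        have q1 := (h (u.val / 2) (u.val / 2) (by omega) (by omega)).mpr (Or.inl rfl)
        have q2 := (h (v.val / 2) (v.val / 2) (by omega) (by omega)).mpr (Or.inl rfl)
        rw [hx] at q1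
        rw [← hx] at q2
        have r1 := (h _ _ (by omega) (by omega)).mp q1
        have r2 := (h _ _ (by omega) (by omega)).mp q2
        apply Fin.ext
        omega
  exact ⟨⟨⟨f, hinj⟩, fun {u v} => hadj u v⟩⟩

lemma built_bound {t : ℕ} (ht : 1 ≤ t) : ∃ c : ℕ, ∀ (V : Type) [Finite V] [Nonempty V]
    (G : SimpleGraph V), EFreeChordalBipartite t V G → ∃ l : V → Fin c, Built c V G l := by
  obtain ⟨D, hD⟩ : ∃ D, 2 ^ ((6 * t + 4) * (2 ^ (4 * t) + 2)) ≤ D := ⟨_, le_rfl⟩
  obtain ⟨N, hN, hN'⟩ : ∃ N, D + 1 ≤ N ∧ 2 ^ D ≤ N :=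
    ⟨max (D + 1) (2 ^ D), le_max_left _ _, le_max_right _ _⟩
  refine ⟨2 * (2 * N), ?_⟩
  intro V _ _ G hG
  have := Fintype.ofFinite V
  obtain ⟨C⟩ := hG.1.1
  let col : V → Bool := fun v => decide (C v = 0)
  have hcol : ∀ u v, G.Adj u v → col u ≠ col v := by
    intro u v huv h
    have h1 := C.valid huv
    simp only [col, decide_eq_decide] at h
    revert h h1
    generalize C u = x
    generalize C v = y
    revert x y
    decide
  let A : Type := {v : V // col v = true}
  let B : Type := {v : V // col v = false}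
  let R : A → B → Prop := fun a b => G.Adj a.1 b.1
  have hsame : ∀ {u v : V}, col u = col v → ¬ G.Adj u v := fun h hh => hcol _ _ hh h
  have hP : Pres R G (Subtype.val : A → V) (Subtype.val : B → V) := by
    refine ⟨Subtype.val_injective, Subtype.val_injective, ?_, ?_, ?_, ?_, fun a b => Iff.rfl⟩
    · intro a b h
      have h1 := a.2
      rw [h, b.2] at h1
      exact absurd h1 (by simp)
    · intro v
      cases h : col v
      · exact Or.inr ⟨⟨v, h⟩, rfl⟩
      · exact Or.inl ⟨⟨v, h⟩, rfl⟩
    · intro a a'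
      apply hsame
      rw [a.2, a'.2]
    · intro a a'
      apply hsame
      rw [a.2, a'.2]
  have hcyc : NoCyc R := noCyc_of_chordal hP hG.1.2
  have hE : NoE t R := by
    intro c a' a'' b' b'' F h1 h2 h3 h4 h5 h6 h7
    by_contra hcon
    push Not at hcon
    apply hG.2
    refine embedE hcol ht (c := c.1) (a' := a'.1) (a'' := a''.1) (b' := b'.1) (b'' := b''.1)
      (F.map ⟨Subtype.val, Subtype.val_injective⟩) (by rw [card_map]; exact hcon)
      (by rw [a'.2, c.2]) (by rw [a''.2, c.2]) h1 h2 h3 h4 h5 h6 ?_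
    intro b hb
    obtain ⟨b0, hb0, rfl⟩ := mem_map.mp hb
    exact h7 b0 hb0
  have hE' : NoE t (flip R) := by
    intro c a' a'' b' b'' F h1 h2 h3 h4 h5 h6 h7
    by_contra hcon
    push Not at hcon
    apply hG.2
    refine embedE hcol ht (c := c.1) (a' := a'.1) (a'' := a''.1) (b' := b'.1) (b'' := b''.1)
      (F.map ⟨Subtype.val, Subtype.val_injective⟩) (by rw [card_map]; exact hcon)
      (by rw [a'.2, c.2]) (by rw [a''.2, c.2]) (G.adj_symm h1) (G.adj_symm h2) (G.adj_symm h3)
      (fun h => h4 (G.adj_symm h)) (G.adj_symm h5) (fun h => h6 (G.adj_symm h)) ?_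
    intro b hb
    obtain ⟨b0, hb0, rfl⟩ := mem_map.mp hb
    have := h7 b0 hb0
    exact ⟨G.adj_symm this.1, fun h => this.2.1 (G.adj_symm h), fun h => this.2.2 (G.adj_symm h)⟩
  have hne : Nonempty A ∨ Nonempty B := by
    rcases hP.cov (Classical.arbitrary V) with ⟨a, -⟩ | ⟨b, -⟩
    · exact Or.inl ⟨a⟩
    · exact Or.inr ⟨b⟩
  have hdec := main_dec_aux (s := t) (D := D) (N := N) ht hD hN hN' _ A B R rfl
    hcyc hE hE' hne
  have hdecG := decG_of_dec hP hdec
  obtain ⟨l, hl, -, -⟩ := built_of_decG (K := 2 * N) (by omega) hdecG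
  have huniv : ((Subtype.val : A → V) '' (univ : Finset A) ∪ (Subtype.val : B → V) ''
      (univ : Finset B) : Set V) = Set.univ := by
    ext v
    simp only [coe_univ, Set.image_univ, Set.mem_union, Set.mem_range, Set.mem_univ, iff_true]
    exact hP.cov v
  rw [huniv] at hl
  exact ⟨l, Built.iso (SimpleGraph.induceUnivIso G) (fun v => rfl) hl⟩

theorem main {t : ℕ} (ht : 1 ≤ t) : BoundedCliqueWidth (EFreeChordalBipartite t) := by
  obtain ⟨c, hc⟩ := built_bound ht
  refine ⟨c, ?_⟩
  intro V _ _ G hG
  exact iInf₂_le c (hc V G hG)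

end Pool.Agent.Helper36.CWid
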