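import Pool.Agent.Helper36.CWid.Max

namespace Pool.Agent.Helper36.CWid

open Finset Classical

universe u v

variable {A : Type u} {B : Type v} [Fintype A] [Fintype B]

lemma half_card_le {R : A → B → Prop} (hI : Irred R) {M : Finset A × Finset B} (hM : IsMx R M)
    {As : Finset A} {aM : A} (hAs : ∀ a ∈ As, a ∈ OA R M → a = aM) :
    (As.filter (fun a => a ∈ M.1)).card ≤ 3 := by
  have hsub : As.filter (fun a => a ∈ M.1) ⊆ insert aM (M.1 \ OA R M) := by
    intro a ha
    obtain ⟨h1, h2⟩ := mem_filter.mp ha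
    rw [mem_insert, mem_sdiff]
    by_cases h : a ∈ OA R M
    · left; exact hAs a h1 h
    · right; exact ⟨h2, h⟩
  have h1 := card_le_card hsub
  have h2 := card_insert_le aM (M.1 \ OA R M)
  have h3 := not_owned_card hI hM
  omega

lemma no_long {R : A → B → Prop} {s : ℕ} (hs : 1 ≤ s) (h6 : NoC6 R) (hE : NoE s R)
    (hE' : NoE s (flip R)) {As : Finset A}
    (hAs : ∀ M, IsMx R M → (As.filter (fun a => a ∈ M.1)).card ≤ 3) (a : ℕ → A) (b : ℕ → B)
    (h : HG R (range (6 * s + 4)) a b) (ha : ∀ i < 6 * s + 4, a i ∈ As) : False := by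
  obtain ⟨MA, MB, hbi, ⟨x, hx⟩, J, hJ, hJc, hJA, hJB⟩ := bimod_of_hg h6 hE hE' hs h (by simp)
  have hJne : J.Nonempty := by rw [← card_pos]; omega
  set i := J.min' hJne with hi
  set k := J.max' hJne with hk
  have hiJ : i ∈ J := min'_mem _ _
  have hkJ : k ∈ J := max'_mem _ _
  have hex : ((J.erase i).erase k).Nonempty := by
    rw [← card_pos]
    have h1 : (J.erase i).card = J.card - 1 := card_erase_of_mem hiJ
    have h2 : (J.erase i).card - 1 ≤ ((J.erase i).erase k).card := pred_card_le_card_erase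
    omega
  obtain ⟨j, hj⟩ := hex
  obtain ⟨hjk, hj⟩ := mem_erase.mp hj
  obtain ⟨hji, hjJ⟩ := mem_erase.mp hj
  have hij : i < j := lt_of_le_of_ne (min'_le _ _ hjJ) (Ne.symm hji)
  have hjk : j < k := lt_of_le_of_ne (le_max' _ _ hjJ) hjk
  have hthick : Thick R (MA, MB) := by
    refine ⟨a j, hJA j hjJ, b j, hJB j hjJ, b i, hJB i hiJ, a k, hJA k hkJ, a i, hJA i hiJ,
      (h j (hJ hjJ) j (hJ hjJ)).mpr le_rfl, ?_, ?_, (h i (hJ hiJ) i (hJ hiJ)).mpr le_rfl⟩
    · intro hh
      have := (h j (hJ hjJ) i (hJ hiJ)).mp hh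
      omega
    · intro hh
      have := (h k (hJ hkJ) j (hJ hjJ)).mp hh
      omega
  have hgood : Good R (MA, MB) := ⟨hbi, hthick, Or.inl (fun he => hx (by
    have : x ∈ (univ : Finset A) := mem_univ _
    rw [← he] at this
    exact this))⟩
  obtain ⟨M, hM, hMA, -⟩ := exists_mx hgood
  have h1 := hAs M hM
  have h2 : (J.image a) ⊆ As.filter (fun a => a ∈ M.1) := by
    intro z hz
    obtain ⟨l, hl, rfl⟩ := mem_image.mp hz
    exact mem_filter.mpr ⟨ha l (mem_range.mp (hJ hl)), hMA (hJA l hl)⟩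
  have h3 := card_le_card h2
  rw [card_image_of_injOn (h.injA.mono (by exact_mod_cast hJ))] at h3
  omega

theorem irreducible_case {R : A → B → Prop} {s D N : ℕ} (hs : 1 ≤ s) (hcyc : NoCyc R)
    (hE : NoE s R) (hE' : NoE s (flip R)) (hD : 2 ^ ((6 * s + 4) * (2 ^ (4 * s) + 2)) ≤ D)
    (hN : D + 1 ≤ N) (hN' : 2 ^ D ≤ N) (hI : Irred R)
    (IH : ∀ (MA : Finset A) (MB : Finset B), (MA ≠ univ ∨ MB ≠ univ) →
      (MA.Nonempty ∨ MB.Nonempty) → Dec R N MA MB MA MB)
    (hne : Nonempty B) : Dec R N univ univ univ univ := by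
  have h6 := hcyc.noC6
  -- representatives
  have hrep : ∀ M : Finset A × Finset B, ∃ t : A × B × B, IsMx R M →
      (t.1 ∈ OA R M ∧ t.2.1 ∈ OB R M ∧ t.2.2 ∈ OB R M ∧ R t.1 t.2.1 ∧ ¬ R t.1 t.2.2) := by
    intro M
    by_cases hM : IsMx R M
    · obtain ⟨a, b, c, h⟩ := own_triple hI hM
      exact ⟨(a, b, c), fun _ => h⟩
    · by_cases hA : Nonempty A
      · exact ⟨(hA.some, hne.some, hne.some), fun h => absurd h hM⟩
      · exfalso
        obtain ⟨x, -, -⟩ := hI.hB hne.some
        exact hA ⟨x⟩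
  choose rep hrep using hrep
  let aM : Finset A × Finset B → A := fun M => (rep M).1
  let bM : Finset A × Finset B → B := fun M => (rep M).2.1
  let cM : Finset A × Finset B → B := fun M => (rep M).2.2
  have haM : ∀ M, IsMx R M → aM M ∈ OA R M := fun M hM => (hrep M hM).1
  have hbM : ∀ M, IsMx R M → bM M ∈ OB R M := fun M hM => (hrep M hM).2.1
  have hcM : ∀ M, IsMx R M → cM M ∈ OB R M := fun M hM => (hrep M hM).2.2.1
  have hab : ∀ M, IsMx R M → R (aM M) (bM M) := fun M hM => (hrep M hM).2.2.2.1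
  have hac : ∀ M, IsMx R M → ¬ R (aM M) (cM M) := fun M hM => (hrep M hM).2.2.2.2
  -- homogeneity
  have homA : ∀ M, IsMx R M → ∀ b, b ∉ OB R M → ∀ a ∈ OA R M, ∀ a' ∈ OA R M,
      (R a b ↔ R a' b) := fun M hM b hb a ha a' ha' =>
    ⟨(own_bi hI hM).1 b hb a ha a' ha', (own_bi hI hM).1 b hb a' ha' a ha⟩
  have homB : ∀ M, IsMx R M → ∀ a, a ∉ OA R M → ∀ b ∈ OB R M, ∀ b' ∈ OB R M,
      (R a b ↔ R a b') := fun M hM a ha b hb b' hb' =>
    ⟨(own_bi hI hM).2 a ha b hb b' hb', (own_bi hI hM).2 a ha b' hb' b hb⟩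
  -- retractions
  let ρA : A → A := fun a => if h : ∃ M, IsMx R M ∧ a ∈ OA R M then aM h.choose else a
  let ρB : B → B := fun b => if h : ∃ M, IsMx R M ∧ b ∈ OB R M then bM h.choose else b
  choose nb hnb using (fun a => (show ∃ y, R a y by
    obtain ⟨y, -, h, -⟩ := hI.hA a
    exact ⟨y, h⟩))
  let tA : A → B := fun a => if h : ∃ M, IsMx R M ∧ a ∈ OA R M then bM h.choose else ρB (nb a)
  have hρA : ∀ M, IsMx R M → ∀ a ∈ OA R M, ρA a = aM M := by
    intro M hM a ha
    have h : ∃ M, IsMx R M ∧ a ∈ OA R M := ⟨M, hM, ha⟩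
    simp only [ρA]
    rw [dif_pos h, OA_uniq h.choose_spec.1 ha h.choose_spec.2]
  have hρA' : ∀ a, (∀ M, IsMx R M → a ∉ OA R M) → ρA a = a := by
    intro a ha
    simp only [ρA]
    rw [dif_neg (by rintro ⟨M, hM, h⟩; exact ha M hM h)]
  have hρB : ∀ M, IsMx R M → ∀ a ∈ OB R M, ρB a = bM M := by
    intro M hM a ha
    have h : ∃ M, IsMx R M ∧ a ∈ OB R M := ⟨M, hM, ha⟩
    simp only [ρB]
    rw [dif_pos h, OB_uniq h.choose_spec.1 ha h.choose_spec.2]
  have hρB' : ∀ a, (∀ M, IsMx R M → a ∉ OB R M) → ρB a = a := by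
    intro a ha
    simp only [ρB]
    rw [dif_neg (by rintro ⟨M, hM, h⟩; exact ha M hM h)]
  have htA : ∀ M, IsMx R M → ∀ a ∈ OA R M, tA a = bM M := by
    intro M hM a ha
    have h : ∃ M, IsMx R M ∧ a ∈ OA R M := ⟨M, hM, ha⟩
    simp only [tA]
    rw [dif_pos h, OA_uniq h.choose_spec.1 ha h.choose_spec.2]
  have htA' : ∀ a, (∀ M, IsMx R M → a ∉ OA R M) → tA a = ρB (nb a) := by
    intro a ha
    simp only [tA]
    rw [dif_neg (by rintro ⟨M, hM, h⟩; exact ha M hM h)]
  have ownA_dec : ∀ a, (∃ M, IsMx R M ∧ a ∈ OA R M) ∨ (∀ M, IsMx R M → a ∉ OA R M) := by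
    intro a
    by_cases h : ∃ M, IsMx R M ∧ a ∈ OA R M
    · exact Or.inl h
    · push Not at h
      exact Or.inr h
  have ownB_dec : ∀ a, (∃ M, IsMx R M ∧ a ∈ OB R M) ∨ (∀ M, IsMx R M → a ∉ OB R M) := by
    intro a
    by_cases h : ∃ M, IsMx R M ∧ a ∈ OB R M
    · exact Or.inl h
    · push Not at h
      exact Or.inr h
  let same : A → B → Prop := fun a b => ∃ M, IsMx R M ∧ a ∈ OA R M ∧ b ∈ OB R M
  have hK : ∀ a b, ¬ same a b → (R a b ↔ R (ρA a) (ρB b)) := by
    intro a b hns
    rcases ownA_dec a with ⟨M, hM, ha⟩ | ha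
    · have hb : b ∉ OB R M := fun hb => hns ⟨M, hM, ha, hb⟩
      rw [hρA M hM a ha, homA M hM b hb a ha (aM M) (haM M hM)]
      rcases ownB_dec b with ⟨M', hM', hb'⟩ | hb'
      · have hne' : aM M ∉ OA R M' := by
          intro hh
          have := OA_uniq hM' (haM M hM) hh
          rw [this] at hb'
          exact hb hb'
        rw [hρB M' hM' b hb']
        exact homB M' hM' _ hne' b hb' (bM M') (hbM M' hM')
      · rw [hρB' b hb']
    · rw [hρA' a ha]
      rcases ownB_dec b with ⟨M', hM', hb'⟩ | hb'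
      · rw [hρB M' hM' b hb']
        exact homB M' hM' _ (ha M' hM') b hb' (bM M') (hbM M' hM')
      · rw [hρB' b hb']
  -- the reduced graph
  let As : Finset A := univ.image ρA
  let Bs : Finset B := univ.filter (fun b => (∀ M, IsMx R M → b ∉ OB R M) ∨
    ∃ M, IsMx R M ∧ (b = bM M ∨ b = cM M))
  have hAsOwn : ∀ M, IsMx R M → ∀ a ∈ As, a ∈ OA R M → a = aM M := by
    intro M hM a ha haO
    obtain ⟨x, -, rfl⟩ := mem_image.mp ha
    rcases ownA_dec x with ⟨M', hM', hx⟩ | hx
    · rw [hρA M' hM' x hx] at haO ⊢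
      rw [OA_uniq hM (haM M' hM') haO]
    · rw [hρA' x hx] at haO
      exact absurd haO (hx M hM)
  have hAs3 : ∀ M, IsMx R M → (As.filter (fun a => a ∈ M.1)).card ≤ 3 := fun M hM =>
    half_card_le hI hM (hAsOwn M hM)
  have hsep : ∀ x ∈ As, ∀ x' ∈ As, x ≠ x' → ∃ y ∈ Bs, ¬ (R x y ↔ R x' y) := by
    intro x hx x' hx' hne'
    have hex : ∃ y, ¬ (R x y ↔ R x' y) := by
      by_contra hc
      push Not at hc
      exact hne' (hI.tA x x' hc)
    obtain ⟨y, hy⟩ := hex
    rcases ownB_dec y with ⟨M, hM, hyO⟩ | hyO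
    · have hbB : bM M ∈ Bs := by
        simp only [Bs, mem_filter, mem_univ, true_and]
        exact Or.inr ⟨M, hM, Or.inl rfl⟩
      have hcB : cM M ∈ Bs := by
        simp only [Bs, mem_filter, mem_univ, true_and]
        exact Or.inr ⟨M, hM, Or.inr rfl⟩
      by_cases h1 : x ∈ OA R M
      · have e1 := hAsOwn M hM x hx h1
        have h2 : x' ∉ OA R M := fun h => hne' (e1.trans (hAsOwn M hM x' hx' h).symm)
        by_contra hc
        push Not at hc
        have q1 := hc _ hbB
        have q2 := hc _ hcB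
        have q3 := homB M hM x' h2 (bM M) (hbM M hM) (cM M) (hcM M hM)
        rw [e1] at q1 q2
        exact hac M hM (q2.mpr (q3.mp (q1.mp (hab M hM))))
      · by_cases h2 : x' ∈ OA R M
        · have e1 := hAsOwn M hM x' hx' h2
          by_contra hc
          push Not at hc
          have q1 := hc _ hbB
          have q2 := hc _ hcB
          have q3 := homB M hM x h1 (bM M) (hbM M hM) (cM M) (hcM M hM)
          rw [e1] at q1 q2
          exact hac M hM (q2.mp (q3.mp (q1.mpr (hab M hM))))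
        · refine ⟨bM M, hbB, ?_⟩
          rw [homB M hM x h1 (bM M) (hbM M hM) y hyO, homB M hM x' h2 (bM M) (hbM M hM) y hyO]
          exact hy
    · exact ⟨y, by simp only [Bs, mem_filter, mem_univ, true_and]; exact Or.inl hyO, hy⟩
  have hdeg : ∀ c, (As.filter (fun x => R x c)).card ≤ D := by
    intro c
    refine (deg_bound (L := 6 * s + 4) (by omega) h6 hE' (c := c) (U := As.filter (fun x => R x c))
      (S := Bs) (fun x hx => (mem_filter.mp hx).2) (fun x hx x' hx' hne' =>
        hsep x (mem_filter.mp hx).1 x' (mem_filter.mp hx').1 hne') ?_).trans hD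
    rintro ⟨a, b, hh, ha⟩
    exact no_long hs h6 hE hE' hAs3 a b hh (fun i hi => (mem_filter.mp (ha i hi)).1)
  have hρmem : ∀ a, ρA a ∈ As := fun a => mem_image_of_mem _ (mem_univ _)
  -- properties of the initial placement
  have hsame : ∀ a b, same a b → tA a = ρB b := by
    rintro a b ⟨M, hM, ha, hb⟩
    rw [htA M hM a ha, hρB M hM b hb]
  have hadjA : ∀ a, R (ρA a) (tA a) := by
    intro a
    rcases ownA_dec a with ⟨M, hM, ha⟩ | ha
    · rw [hρA M hM a ha, htA M hM a ha]
      exact hab M hM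
    · rw [htA' a ha]
      exact (hK a (nb a) (by rintro ⟨M, hM, h, -⟩; exact ha M hM h)).mp (hnb a)
  have hinv : ∀ a b, R a b → tA a ≠ ρB b → R (ρA a) (tA a) ∧ R (ρA a) (ρB b) := by
    intro a b hR hne'
    exact ⟨hadjA a, (hK a b (fun h => hne' (hsame a b h))).mp hR⟩
  let S : Finset B := univ.image ρB
  have htS : ∀ a, tA a ∈ S := by
    intro a
    rcases ownA_dec a with ⟨M, hM, ha⟩ | ha
    · rw [htA M hM a ha, ← hρB M hM (bM M) (hbM M hM)]
      exact mem_image_of_mem _ (mem_univ _)
    · rw [htA' a ha]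
      exact mem_image_of_mem _ (mem_univ _)
  refine assemble hN hN' hcyc hρmem hdeg same hK S.card S rfl
    ⟨ρB hne.some, mem_image_of_mem _ (mem_univ _)⟩ tA ρB htS
    (fun b => mem_image_of_mem _ (mem_univ _)) hsame hinv ?_
  intro t ht
  obtain ⟨b1, -, hb1⟩ := mem_image.mp ht
  -- fibres
  let UA : Finset A := univ.filter (fun a => ∃ M, IsMx R M ∧ a ∈ OA R M ∧ bM M = t)
  let F : Finset A := univ.filter (fun a => (∀ M, IsMx R M → a ∉ OA R M) ∧ tA a = t)
  let UB : Finset B := univ.filter (fun b => ρB b = t)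
  have hfib : univ.filter (fun a => tA a = t) = UA ∪ F := by
    ext a
    simp only [UA, F, mem_filter, mem_univ, true_and, mem_union]
    constructor
    · intro h
      rcases ownA_dec a with ⟨M, hM, ha⟩ | ha
      · left
        rw [htA M hM a ha] at h
        exact ⟨M, hM, ha, h⟩
      · right
        exact ⟨ha, h⟩
    · rintro (⟨M, hM, ha, h⟩ | ⟨_, h⟩)
      · rw [htA M hM a ha]
        exact h
      · exact h
  have hdisj : Disjoint UA F := by
    rw [disjoint_left]
    intro a ha ha'
    simp only [UA, F, mem_filter, mem_univ, true_and] at ha ha'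
    obtain ⟨M, hM, h, -⟩ := ha
    exact ha'.1 M hM h
  have hdecU : Dec R N univ univ UA UB := by
    by_cases hown : ∃ M, IsMx R M ∧ bM M = t
    · obtain ⟨M, hM, hMt⟩ := hown
      have e1 : UA = OA R M := by
        ext a
        simp only [UA, mem_filter, mem_univ, true_and]
        constructor
        · rintro ⟨M', hM', ha, h⟩
          have h1 := hbM M hM
          have h2 := hbM M' hM'
          rw [hMt] at h1
          rw [h] at h2
          rw [OB_uniq hM h2 h1]
          exact ha
        · intro ha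
          exact ⟨M, hM, ha, hMt⟩
      have e2 : UB = OB R M := by
        ext b
        simp only [UB, mem_filter, mem_univ, true_and]
        constructor
        · intro h
          rcases ownB_dec b with ⟨M', hM', hb⟩ | hb
          · rw [hρB M' hM' b hb] at h
            have h1 := hbM M hM
            have h2 := hbM M' hM'
            rw [hMt] at h1
            rw [h] at h2
            rw [OB_uniq hM h2 h1]
            exact hb
          · rw [hρB' b hb] at h
            have h1 := hbM M hM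
            rw [hMt, ← h] at h1
            exact h1
        · intro hb
          rw [hρB M hM b hb]
          exact hMt
      rw [e1, e2]
      have hprop : OA R M ≠ univ ∨ OB R M ≠ univ := by
        rcases hM.1.2.2 with h | h
        · left
          intro hh
          apply h
          rw [eq_univ_iff_forall] at hh ⊢
          exact fun x => (mem_filter.mp (hh x)).1
        · right
          intro hh
          apply h
          rw [eq_univ_iff_forall] at hh ⊢
          exact fun x => (mem_filter.mp (hh x)).1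
      exact dec_of_bi (own_bi hI hM) (IH _ _ hprop (Or.inl ⟨aM M, haM M hM⟩)) Subset.rfl Subset.rfl
    · push Not at hown
      have hb1n : ∀ M, IsMx R M → b1 ∉ OB R M := by
        intro M hM hb
        rw [hρB M hM b1 hb] at hb1
        exact hown M hM hb1
      have hb1t : b1 = t := by rw [← hb1, hρB' b1 hb1n]
      have e1 : UA = ∅ := by
        apply filter_false_of_mem
        rintro a - ⟨M, hM, ha, h⟩
        exact hown M hM h
      have e2 : UB = {t} := by
        ext b
        simp only [UB, mem_filter, mem_univ, true_and, mem_singleton]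
        constructor
        · intro h
          rcases ownB_dec b with ⟨M', hM', hb⟩ | hb
          · rw [hρB M' hM' b hb] at h
            exact absurd h (hown M' hM')
          · rw [hρB' b hb] at h
            exact h
        · intro h
          rw [h, ← hb1t]
          exact hb1.trans hb1t.symm
      rw [e1, e2]
      exact Dec.leafB t
  rw [hfib]
  change Dec R N univ univ (UA ∪ F) UB
  apply add_singles hdecU F hdisj
  intro F' hF'
  have hF'non : ∀ a ∈ F', ∀ M, IsMx R M → a ∉ OA R M := by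
    intro a ha
    have := hF' ha
    simp only [F, mem_filter, mem_univ, true_and] at this
    exact this.1
  have hZt : ∀ a ∈ UA ∪ F', tA a = t := by
    intro a ha
    have : a ∈ UA ∪ F := by
      rcases mem_union.mp ha with h | h
      · exact mem_union_left _ h
      · exact mem_union_right _ (hF' h)
    rw [← hfib, mem_filter] at this
    exact this.2
  have hsame1 : ∀ a ∈ UA ∪ F', ∀ b, b ∉ UB → ¬ same a b := by
    rintro a ha b hb hsm
    apply hb
    simp only [UB, mem_filter, mem_univ, true_and]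
    rw [← hsame a b hsm]
    exact hZt a ha
  have hsame2 : ∀ a, a ∉ UA ∪ F' → ∀ b ∈ UB, ¬ same a b := by
    rintro a ha b hb ⟨M, hM, h1, h2⟩
    apply ha
    apply mem_union_left
    simp only [UB, UA, mem_filter, mem_univ, true_and] at hb ⊢
    rw [hρB M hM b h2] at hb
    exact ⟨M, hM, h1, hb⟩
  obtain ⟨c1, c2⟩ := class_bound (R := R) (D := D) (ρA := ρA) (ρB := ρB) (As := As) hρmem (s := t)
    (hdeg t) (ZA := UA ∪ F') (ZB := UB)
    (fun a ha b hb => hK a b (hsame1 a ha b hb))
    (fun a ha b hb => hK a b (hsame2 a ha b hb))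
    (by
      intro a ha b hb hR
      have := hadjA a
      rw [hZt a ha] at this
      exact this)
    (by
      intro a ha b hb hR
      have h1 := (hK a b (hsame2 a ha b hb)).mp hR
      simp only [UB, mem_filter, mem_univ, true_and] at hb
      rw [hb] at h1
      exact h1)
  exact ⟨c1.trans hN, c2.trans hN'⟩

end Pool.Agent.Helper36.CWid
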