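import Pool.Agent.Helper36.CWid.Asm

namespace Pool.Agent.Helper36.CWid

open Finset Classical

universe u v

variable {A : Type u} {B : Type v} [Fintype A] [Fintype B]

/-- A bimodule that is not trivially decomposable. -/
def Thick (R : A → B → Prop) (M : Finset A × Finset B) : Prop :=
  ∃ a ∈ M.1, ∃ b ∈ M.2, ∃ c ∈ M.2, ∃ x ∈ M.1, ∃ z ∈ M.1, R a b ∧ ¬ R a c ∧ ¬ R x b ∧ R z c

/-- A proper thick bimodule. -/
def Good (R : A → B → Prop) (M : Finset A × Finset B) : Prop :=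
  IsBi R M.1 M.2 ∧ Thick R M ∧ (M.1 ≠ univ ∨ M.2 ≠ univ)

/-- A maximal proper thick bimodule. -/
def IsMx (R : A → B → Prop) (M : Finset A × Finset B) : Prop :=
  Good R M ∧ ∀ M', Good R M' → M.1 ⊆ M'.1 → M.2 ⊆ M'.2 → M' = M

omit [Fintype A] [Fintype B] in
lemma Thick.mono {R : A → B → Prop} {M M' : Finset A × Finset B} (h : Thick R M)
    (h1 : M.1 ⊆ M'.1) (h2 : M.2 ⊆ M'.2) : Thick R M' := by
  obtain ⟨a, ha, b, hb, c, hc, x, hx, z, hz, h⟩ := h
  exact ⟨a, h1 ha, b, h2 hb, c, h2 hc, x, h1 hx, z, h1 hz, h⟩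

lemma exists_mx {R : A → B → Prop} {M : Finset A × Finset B} (h : Good R M) :
    ∃ M', IsMx R M' ∧ M.1 ⊆ M'.1 ∧ M.2 ⊆ M'.2 := by
  let F : Finset (Finset A × Finset B) := univ.filter
    (fun M' => Good R M' ∧ M.1 ⊆ M'.1 ∧ M.2 ⊆ M'.2)
  have hF : F.Nonempty := ⟨M, by simp [F, h]⟩
  obtain ⟨M', hM', hmax⟩ := F.exists_max_image (fun M' => M'.1.card + M'.2.card) hF
  simp only [F, mem_filter, mem_univ, true_and] at hM' hmax
  refine ⟨M', ⟨hM'.1, ?_⟩, hM'.2⟩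
  intro M'' hM'' h1 h2
  have h3 := hmax M'' ⟨hM'', hM'.2.1.trans h1, hM'.2.2.trans h2⟩
  have h4 := card_le_card h1
  have h5 := card_le_card h2
  have e1 := eq_of_subset_of_card_le h1 (by omega)
  have e2 := eq_of_subset_of_card_le h2 (by omega)
  exact Prod.ext e1.symm e2.symm

omit [Fintype A] [Fintype B] in
lemma IsBi.union_half {R : A → B → Prop} {MA MA' : Finset A} {MB MB' : Finset B}
    (h : IsBi R MA MB) (h' : IsBi R MA' MB') (hA : (MA ∩ MA').Nonempty) :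
    ∀ y, y ∉ MB ∪ MB' → ∀ x ∈ MA ∪ MA', ∀ x' ∈ MA ∪ MA', R x y → R x' y := by
  obtain ⟨w, hw⟩ := hA
  obtain ⟨hw1, hw2⟩ := mem_inter.mp hw
  intro y hy x hx x' hx' hR
  rw [mem_union, not_or] at hy
  have h1 : R w y := by
    rcases mem_union.mp hx with hx | hx
    · exact h.1 y hy.1 x hx w hw1 hR
    · exact h'.1 y hy.2 x hx w hw2 hR
  rcases mem_union.mp hx' with hx' | hx'
  · exact h.1 y hy.1 w hw1 x' hx' h1
  · exact h'.1 y hy.2 w hw2 x' hx' h1

omit [Fintype A] [Fintype B] in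
lemma IsBi.union {R : A → B → Prop} {MA MA' : Finset A} {MB MB' : Finset B}
    (h : IsBi R MA MB) (h' : IsBi R MA' MB') (hA : (MA ∩ MA').Nonempty)
    (hB : (MB ∩ MB').Nonempty) : IsBi R (MA ∪ MA') (MB ∪ MB') :=
  ⟨h.union_half h' hA, h.flip.union_half h'.flip hB⟩

lemma compl_half {R : A → B → Prop} {MA MA' : Finset A} {MB MB' : Finset B}
    (h : IsBi R MA MB) (h' : IsBi R MA' MB') (uA : MA ∪ MA' = univ) (uB : MB ∪ MB' = univ)
    (hns : ¬ (MA ⊆ MA' ∧ MB ⊆ MB')) (hhA : ∀ a, ∃ y y', R a y ∧ ¬ R a y') :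
    ∀ y ∈ MB, ∀ x, x ∉ MA → ∀ x', x' ∉ MA → R x y → R x' y := by
  intro y hy x hx x' hx' hR
  have hx2 : x ∈ MA' := by
    have : x ∈ MA ∪ MA' := by rw [uA]; exact mem_univ _
    rcases mem_union.mp this with h | h
    · exact absurd h hx
    · exact h
  have hx2' : x' ∈ MA' := by
    have : x' ∈ MA ∪ MA' := by rw [uA]; exact mem_univ _
    rcases mem_union.mp this with h | h
    · exact absurd h hx'
    · exact h
  by_cases hy' : y ∈ MB'
  · by_cases hsub : MB ⊆ MB'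
    · exfalso
      have hA : ¬ MA ⊆ MA' := fun hc => hns ⟨hc, hsub⟩
      obtain ⟨x1, hx1, hx1'⟩ := not_subset.mp hA
      obtain ⟨y1, y2, hy1, hy2⟩ := hhA x1
      have hall : ∀ z, z ∈ MB' := by
        intro z
        have : z ∈ MB ∪ MB' := by rw [uB]; exact mem_univ _
        rcases mem_union.mp this with h | h
        · exact hsub h
        · exact h
      exact hy2 (h'.2 x1 hx1' y1 (hall _) y2 (hall _) hy1)
    · obtain ⟨y1, hy1, hy1'⟩ := not_subset.mp hsub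
      have r1 := h.2 x hx y hy y1 hy1 hR
      have r2 := h'.1 y1 hy1' x hx2 x' hx2' r1
      exact h.2 x' hx' y1 hy1 y hy r2
  · exact h'.1 y hy' x hx2 x' hx2' hR

/-- Standing assumptions: nothing to reduce. -/
structure Irred (R : A → B → Prop) : Prop where
  tA : ∀ a a', (∀ y, R a y ↔ R a' y) → a = a'
  tB : ∀ b b', (∀ x, R x b ↔ R x b') → b = b'
  hA : ∀ a, ∃ y y', R a y ∧ ¬ R a y'
  hB : ∀ b, ∃ x x', R x b ∧ ¬ R x' b
  co : ∀ MA MB, IsBi R MA MB → IsBi R (univ \ MA) (univ \ MB) →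
    ((∃ x, x ∈ MA) ∨ ∃ y, y ∈ MB) → ((∃ x, x ∉ MA) ∨ ∃ y, y ∉ MB) → False

lemma mx_cross {R : A → B → Prop} (hI : Irred R) {M M' : Finset A × Finset B} (hM : IsMx R M)
    (hM' : IsMx R M') (hne : M ≠ M') (hA : (M.1 ∩ M'.1).Nonempty) (hB : (M.2 ∩ M'.2).Nonempty) :
    False := by
  have hU := hM.1.1.union hM'.1.1 hA hB
  have hth : Thick R (M.1 ∪ M'.1, M.2 ∪ M'.2) := hM.1.2.1.mono subset_union_left subset_union_left
  have hns : ¬ (M.1 ⊆ M'.1 ∧ M.2 ⊆ M'.2) := fun h => hne (hM.2 M' hM'.1 h.1 h.2).symm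
  by_cases hp : M.1 ∪ M'.1 ≠ univ ∨ M.2 ∪ M'.2 ≠ univ
  · have hg : Good R (M.1 ∪ M'.1, M.2 ∪ M'.2) := ⟨hU, hth, hp⟩
    have e1 := hM.2 _ hg subset_union_left subset_union_left
    have e2 := hM'.2 _ hg subset_union_right subset_union_right
    exact hne (e1.symm.trans e2)
  · push Not at hp
    have c1 := compl_half hM.1.1 hM'.1.1 hp.1 hp.2 hns hI.hA
    have c2 := compl_half hM.1.1.flip hM'.1.1.flip hp.2 hp.1 (fun h => hns h.symm) hI.hB
    obtain ⟨w, hw⟩ := hA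
    refine hI.co M.1 M.2 hM.1.1 ⟨?_, ?_⟩ (Or.inl ⟨w, (mem_inter.mp hw).1⟩) ?_
    · intro y hy x hx x' hx' hR
      have hy' : y ∈ M.2 := by
        by_contra hc
        exact hy (mem_sdiff.mpr ⟨mem_univ _, hc⟩)
      exact c1 y hy' x (mem_sdiff.mp hx).2 x' (mem_sdiff.mp hx').2 hR
    · intro y hy x hx x' hx' hR
      have hy' : y ∈ M.1 := by
        by_contra hc
        exact hy (mem_sdiff.mpr ⟨mem_univ _, hc⟩)
      exact c2 y hy' x (mem_sdiff.mp hx).2 x' (mem_sdiff.mp hx').2 hR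
    · rcases hM.1.2.2 with h | h
      · left
        by_contra hc
        push Not at hc
        exact h (eq_univ_iff_forall.mpr hc)
      · right
        by_contra hc
        push Not at hc
        exact h (eq_univ_iff_forall.mpr hc)

omit [Fintype A] [Fintype B] in
lemma cross_homog {R : A → B → Prop} {MA MA' : Finset A} {MB MB' : Finset B}
    (h : IsBi R MA MB) (h' : IsBi R MA' MB') (hdis : ¬ (MB ∩ MB').Nonempty)
    (hth : ∃ b ∈ MB', ∃ x ∈ MA', ∃ x' ∈ MA', R x b ∧ ¬ R x' b) {a : A} (_ha : a ∈ MA)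
    (ha' : a ∈ MA') : ∀ y ∈ MB, ∀ y' ∈ MB, R a y → R a y' := by
  have hdis' : ∀ y, y ∈ MB → y ∉ MB' := fun y h1 h2 => hdis ⟨y, mem_inter.mpr ⟨h1, h2⟩⟩
  have hex : ∃ x ∈ MA', x ∉ MA := by
    by_contra hc
    push Not at hc
    obtain ⟨b, hb, x, hx, x', hx', h1, h2⟩ := hth
    have hbn : b ∉ MB := fun hh => hdis' b hh hb
    exact h2 (h.1 b hbn x (hc x hx) x' (hc x' hx') h1)
  obtain ⟨x, hx, hx'⟩ := hex
  intro y hy y' hy' hR
  have r1 := h'.1 y (hdis' y hy) a ha' x hx hR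
  have r2 := h.2 x hx' y hy y' hy' r1
  exact h'.1 y' (hdis' y' hy') x hx a ha' r2

lemma mx_homA {R : A → B → Prop} (hI : Irred R) {M M' : Finset A × Finset B} (hM : IsMx R M)
    (hM' : IsMx R M') (hne : M' ≠ M) {a : A} (ha : a ∈ M.1) (ha' : a ∈ M'.1) :
    ∀ y ∈ M.2, ∀ y' ∈ M.2, R a y → R a y' := by
  apply cross_homog hM.1.1 hM'.1.1 _ _ ha ha'
  · intro hB
    exact mx_cross hI hM hM' hne.symm ⟨a, mem_inter.mpr ⟨ha, ha'⟩⟩ hB
  · obtain ⟨a, ha, b, hb, c, hc, x, hx, z, hz, h1, h2, h3, h4⟩ := hM'.1.2.1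
    exact ⟨b, hb, a, ha, x, hx, h1, h3⟩

lemma mx_homB {R : A → B → Prop} (hI : Irred R) {M M' : Finset A × Finset B} (hM : IsMx R M)
    (hM' : IsMx R M') (hne : M' ≠ M) {b : B} (hb : b ∈ M.2) (hb' : b ∈ M'.2) :
    ∀ x ∈ M.1, ∀ x' ∈ M.1, R x b → R x' b := by
  apply cross_homog (R := flip R) hM.1.1.flip hM'.1.1.flip _ _ hb hb'
  · intro hA
    exact mx_cross hI hM hM' hne.symm hA ⟨b, mem_inter.mpr ⟨hb, hb'⟩⟩
  · obtain ⟨a, ha, b, hb, c, hc, x, hx, z, hz, h1, h2, h3, h4⟩ := hM'.1.2.1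
    exact ⟨a, ha, b, hb, c, hc, h1, h2⟩

/-- The `A`-vertices owned by `M`. -/
noncomputable def OA (R : A → B → Prop) (M : Finset A × Finset B) : Finset A :=
  M.1.filter (fun a => ∀ M', IsMx R M' → a ∈ M'.1 → M' = M)

/-- The `B`-vertices owned by `M`. -/
noncomputable def OB (R : A → B → Prop) (M : Finset A × Finset B) : Finset B :=
  M.2.filter (fun b => ∀ M', IsMx R M' → b ∈ M'.2 → M' = M)

lemma OA_uniq {R : A → B → Prop} {M M' : Finset A × Finset B} (hM' : IsMx R M')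
    {a : A} (h : a ∈ OA R M) (h' : a ∈ OA R M') : M' = M :=
  (mem_filter.mp h).2 M' hM' (mem_filter.mp h').1

lemma OB_uniq {R : A → B → Prop} {M M' : Finset A × Finset B} (hM' : IsMx R M')
    {a : B} (h : a ∈ OB R M) (h' : a ∈ OB R M') : M' = M :=
  (mem_filter.mp h).2 M' hM' (mem_filter.mp h').1

lemma own_homA {R : A → B → Prop} (hI : Irred R) {M : Finset A × Finset B} (hM : IsMx R M) {a : A}
    (ha : a ∈ M.1) (hn : a ∉ OA R M) : ∀ y ∈ M.2, ∀ y' ∈ M.2, R a y → R a y' := by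
  have : ∃ M', IsMx R M' ∧ a ∈ M'.1 ∧ M' ≠ M := by
    by_contra hc
    push Not at hc
    exact hn (mem_filter.mpr ⟨ha, hc⟩)
  obtain ⟨M', hM', haM', hne⟩ := this
  exact mx_homA hI hM hM' hne ha haM'

lemma own_homB {R : A → B → Prop} (hI : Irred R) {M : Finset A × Finset B} (hM : IsMx R M) {b : B}
    (hb : b ∈ M.2) (hn : b ∉ OB R M) : ∀ x ∈ M.1, ∀ x' ∈ M.1, R x b → R x' b := by
  have : ∃ M', IsMx R M' ∧ b ∈ M'.2 ∧ M' ≠ M := by
    by_contra hc
    push Not at hc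
    exact hn (mem_filter.mpr ⟨hb, hc⟩)
  obtain ⟨M', hM', hbM', hne⟩ := this
  exact mx_homB hI hM hM' hne hb hbM'

lemma own_bi {R : A → B → Prop} (hI : Irred R) {M : Finset A × Finset B} (hM : IsMx R M) :
    IsBi R (OA R M) (OB R M) := by
  constructor
  · intro y hy x hx x' hx' hR
    have h1 := (mem_filter.mp hx).1
    have h1' := (mem_filter.mp hx').1
    by_cases hyM : y ∈ M.2
    · exact own_homB hI hM hyM hy x h1 x' h1' hR
    · exact hM.1.1.1 y hyM x h1 x' h1' hR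
  · intro y hy x hx x' hx' hR
    have h1 := (mem_filter.mp hx).1
    have h1' := (mem_filter.mp hx').1
    by_cases hyM : y ∈ M.1
    · exact own_homA hI hM hyM hy x h1 x' h1' hR
    · exact hM.1.1.2 y hyM x h1 x' h1' hR

/-- Every maximal bimodule has an owned representative triple. -/
lemma own_triple {R : A → B → Prop} (hI : Irred R) {M : Finset A × Finset B} (hM : IsMx R M) :
    ∃ a b c, a ∈ OA R M ∧ b ∈ OB R M ∧ c ∈ OB R M ∧ R a b ∧ ¬ R a c := by
  obtain ⟨a, ha, b, hb, c, hc, x, hx, z, hz, h1, h2, h3, h4⟩ := hM.1.2.1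
  refine ⟨a, b, c, ?_, ?_, ?_, h1, h2⟩
  · by_contra hn
    exact h2 (own_homA hI hM ha hn b hb c hc h1)
  · by_contra hn
    exact h3 (own_homB hI hM hb hn a ha x hx h1)
  · by_contra hn
    exact h2 (own_homB hI hM hc hn z hz a ha h4)

/-- At most two `A`-vertices of a maximal bimodule are not owned by it. -/
lemma not_owned_card {R : A → B → Prop} (hI : Irred R) {M : Finset A × Finset B} (hM : IsMx R M) :
    (M.1 \ OA R M).card ≤ 2 := by
  obtain ⟨a0, b0, c0, ha0, hb0, hc0, -, -⟩ := own_triple hI hM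
  have hb0M := (mem_filter.mp hb0).1
  have : (M.1 \ OA R M).card ≤ (univ : Finset Bool).card := by
    apply card_le_card_of_injOn (fun a => decide (R a b0))
    · intro a _; exact mem_coe.mpr (mem_univ _)
    · intro a ha a' ha' hh
      obtain ⟨h1, h2⟩ := mem_sdiff.mp (mem_coe.mp ha)
      obtain ⟨h1', h2'⟩ := mem_sdiff.mp (mem_coe.mp ha')
      have hh' : R a b0 ↔ R a' b0 := by simpa using hh
      apply hI.tA
      intro y
      by_cases hy : y ∈ M.2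
      · have q1 := own_homA hI hM h1 h2 y hy b0 hb0M
        have q2 := own_homA hI hM h1 h2 b0 hb0M y hy
        have q3 := own_homA hI hM h1' h2' y hy b0 hb0M
        have q4 := own_homA hI hM h1' h2' b0 hb0M y hy
        tauto
      · exact ⟨hM.1.1.1 y hy a h1 a' h1', hM.1.1.1 y hy a' h1' a h1⟩
  simpa using this

end Pool.Agent.Helper36.CWid
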