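import Mathlib

/-!
Relation-level combinatorics for `MP_7ff8c4_co`.
-/

namespace Pool.Agent.Helper36.CWid

open Finset Classical

universe u v

variable {A : Type u} {B : Type v}

/-- No three rows and three columns form the complement of a perfect matching (no induced `C₆`). -/
def NoC6 (R : A → B → Prop) : Prop :=
  ∀ a₁ a₂ a₃ : A, ∀ b₁ b₂ b₃ : B,
    ¬ (¬ R a₁ b₁ ∧ R a₁ b₂ ∧ R a₁ b₃ ∧ R a₂ b₁ ∧ ¬ R a₂ b₂ ∧ R a₂ b₃ ∧
       R a₃ b₁ ∧ R a₃ b₂ ∧ ¬ R a₃ b₃)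

/-- No induced `E_{s+1}` with centre in `A`. -/
def NoE (s : ℕ) (R : A → B → Prop) : Prop :=
  ∀ (c a' a'' : A) (b' b'' : B) (F : Finset B), R c b' → R c b'' → R a' b' → ¬ R a' b'' →
    R a'' b'' → ¬ R a'' b' → (∀ b ∈ F, R c b ∧ ¬ R a' b ∧ ¬ R a'' b) → F.card < s

lemma NoC6.flip {R : A → B → Prop} (h : NoC6 R) : NoC6 (flip R) := by
  intro a₁ a₂ a₃ b₁ b₂ b₃ hh
  apply h b₁ b₂ b₃ a₁ a₂ a₃
  simp only [_root_.flip] at hh
  tauto

lemma cover2 {ι : Type*} (F : Finset (Finset ι)) (hne : F.Nonempty)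
    (h : ∀ F₁ ∈ F, ∀ F₂ ∈ F, ∀ F₃ ∈ F, F₁ ⊆ F₂ ∪ F₃ ∨ F₂ ⊆ F₁ ∪ F₃ ∨ F₃ ⊆ F₁ ∪ F₂) :
    ∃ F₁ ∈ F, ∃ F₂ ∈ F, ∀ G ∈ F, G ⊆ F₁ ∪ F₂ := by
  induction F using Finset.induction_on with
  | empty => exact absurd hne (by simp)
  | insert X F hX ih =>
    rcases F.eq_empty_or_nonempty with rfl | hF
    · refine ⟨X, by simp, X, by simp, ?_⟩
      intro G hG
      simp at hG
      subst hG
      simp
    · obtain ⟨F₁, h1, F₂, h2, hc⟩ := ih hF (fun F₁ h1 F₂ h2 F₃ h3 =>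
        h F₁ (mem_insert_of_mem h1) F₂ (mem_insert_of_mem h2) F₃ (mem_insert_of_mem h3))
      rcases h X (mem_insert_self _ _) F₁ (mem_insert_of_mem h1) F₂ (mem_insert_of_mem h2) with
        h' | h' | h'
      · refine ⟨F₁, mem_insert_of_mem h1, F₂, mem_insert_of_mem h2, ?_⟩
        intro G hG
        rcases mem_insert.mp hG with rfl | hG
        · exact h'
        · exact hc G hG
      · refine ⟨X, mem_insert_self _ _, F₂, mem_insert_of_mem h2, ?_⟩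
        intro G hG
        rcases mem_insert.mp hG with rfl | hG
        · exact subset_union_left
        · exact (hc G hG).trans (union_subset h' subset_union_right)
      · refine ⟨X, mem_insert_self _ _, F₁, mem_insert_of_mem h1, ?_⟩
        intro G hG
        rcases mem_insert.mp hG with rfl | hG
        · exact subset_union_left
        · exact (hc G hG).trans (union_subset subset_union_right h')

/-- `a i ~ b j` iff `i ≤ j`, for `i, j ∈ I`. -/
def HG (R : A → B → Prop) (I : Finset ℕ) (a : ℕ → A) (b : ℕ → B) : Prop :=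
  ∀ i ∈ I, ∀ j ∈ I, (R (a i) (b j) ↔ i ≤ j)

lemma HG.mono {R : A → B → Prop} {I J : Finset ℕ} {a : ℕ → A} {b : ℕ → B} (h : HG R I a b)
    (hJ : J ⊆ I) : HG R J a b := fun i hi j hj => h i (hJ hi) j (hJ hj)

lemma HG.injA {R : A → B → Prop} {I : Finset ℕ} {a : ℕ → A} {b : ℕ → B} (h : HG R I a b) :
    Set.InjOn a I := by
  intro i hi j hj hij
  have h1 := (h i hi i hi).mpr le_rfl
  have h2 := (h j hj j hj).mpr le_rfl
  rw [hij] at h1
  rw [← hij] at h2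
  exact le_antisymm ((h i hi j hj).mp h2) ((h j hj i hi).mp h1)

lemma HG.injB {R : A → B → Prop} {I : Finset ℕ} {a : ℕ → A} {b : ℕ → B} (h : HG R I a b) :
    Set.InjOn b I := by
  intro i hi j hj hij
  have h1 := (h i hi i hi).mpr le_rfl
  have h2 := (h j hj j hj).mpr le_rfl
  rw [hij] at h1
  rw [← hij] at h2
  exact le_antisymm ((h i hi j hj).mp h1) ((h j hj i hi).mp h2)

lemma traceB {R : A → B → Prop} {s : ℕ} {I : Finset ℕ} {a : ℕ → A} {b : ℕ → B}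
    (hE : NoE s (flip R)) (h : HG R I a b) {y : B} {i j : ℕ} (hi : i ∈ I) (hj : j ∈ I)
    (hij : i < j) (h1 : ¬ R (a i) y) (h2 : R (a j) y) :
    (I.filter (fun i => ¬ R (a i) y)).card ≤ s := by
  set M := I.filter (fun i => ¬ R (a i) y) with hM
  have hiM : i ∈ M := by rw [hM, mem_filter]; exact ⟨hi, h1⟩
  have hne : M.Nonempty := ⟨i, hiM⟩
  have hIne : I.Nonempty := ⟨i, hi⟩
  set m := M.min' hne with hm
  set l := I.max' hIne with hl
  have hmM : m ∈ M := min'_mem _ _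
  have hmI : m ∈ I := (mem_filter.mp hmM).1
  have hlI : l ∈ I := max'_mem _ _
  have hmi : m ≤ i := min'_le _ _ hiM
  have hF := hE (b l) y (b m) (a j) (a m) ((M.erase m).image a)
    ((h j hj l hlI).mpr (le_max' _ _ hj)) ((h m hmI l hlI).mpr (le_max' _ _ hmI)) h2
    (mem_filter.mp hmM).2 ((h m hmI m hmI).mpr le_rfl)
    (fun hh => by have := (h j hj m hmI).mp hh; omega) (by
      intro x hx
      obtain ⟨k, hk, rfl⟩ := mem_image.mp hx
      obtain ⟨hkm, hkM⟩ := mem_erase.mp hk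
      have hkI := (mem_filter.mp hkM).1
      have hmk : m ≤ k := min'_le _ _ hkM
      refine ⟨(h k hkI l hlI).mpr (le_max' _ _ hkI), (mem_filter.mp hkM).2, fun hh => ?_⟩
      have := (h k hkI m hmI).mp hh
      omega)
  rw [card_image_of_injOn (h.injA.mono (by
    intro k hk
    have := (mem_erase.mp (mem_coe.mp hk)).2
    exact (mem_filter.mp this).1)), card_erase_of_mem hmM] at hF
  omega

lemma traceA {R : A → B → Prop} {s : ℕ} {I : Finset ℕ} {a : ℕ → A} {b : ℕ → B}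
    (hE : NoE s R) (h : HG R I a b) {x : A} {i j : ℕ} (hi : i ∈ I) (hj : j ∈ I)
    (hij : i < j) (h1 : R x (b i)) (h2 : ¬ R x (b j)) :
    (I.filter (fun i => ¬ R x (b i))).card ≤ s := by
  set M := I.filter (fun i => ¬ R x (b i)) with hM
  have hjM : j ∈ M := by rw [hM, mem_filter]; exact ⟨hj, h2⟩
  have hne : M.Nonempty := ⟨j, hjM⟩
  have hIne : I.Nonempty := ⟨i, hi⟩
  set m := M.max' hne with hm
  set l := I.min' hIne with hl
  have hmM : m ∈ M := max'_mem _ _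
  have hmI : m ∈ I := (mem_filter.mp hmM).1
  have hlI : l ∈ I := min'_mem _ _
  have hmi : j ≤ m := le_max' _ _ hjM
  have hF := hE (a l) x (a m) (b i) (b m) ((M.erase m).image b)
    ((h l hlI i hi).mpr (min'_le _ _ hi)) ((h l hlI m hmI).mpr (min'_le _ _ hmI)) h1
    (mem_filter.mp hmM).2 ((h m hmI m hmI).mpr le_rfl)
    (fun hh => by have := (h m hmI i hi).mp hh; omega) (by
      intro x hx
      obtain ⟨k, hk, rfl⟩ := mem_image.mp hx
      obtain ⟨hkm, hkM⟩ := mem_erase.mp hk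
      have hkI := (mem_filter.mp hkM).1
      have hmk : k ≤ m := le_max' _ _ hkM
      refine ⟨(h l hlI k hkI).mpr (min'_le _ _ hkI), (mem_filter.mp hkM).2, fun hh => ?_⟩
      have := (h m hmI k hkI).mp hh
      omega)
  rw [card_image_of_injOn (h.injB.mono (by
    intro k hk
    have := (mem_erase.mp (mem_coe.mp hk)).2
    exact (mem_filter.mp this).1)), card_erase_of_mem hmM] at hF
  omega

/-- A half graph all of whose traces are segments. -/
structure Clean (R : A → B → Prop) (I : Finset ℕ) (a : ℕ → A) (b : ℕ → B) : Prop where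
  hg : HG R I a b
  upB : ∀ x, ∀ i ∈ I, ∀ j ∈ I, i ≤ j → R x (b i) → R x (b j)
  downA : ∀ y, ∀ i ∈ I, ∀ j ∈ I, i ≤ j → R (a j) y → R (a i) y

/-- The union of a family of missed sets is small. -/
lemma union_small {ι : Type*} {s : ℕ} (F : Finset (Finset ι)) (hs : ∀ G ∈ F, G.card ≤ s)
    (h : ∀ F₁ ∈ F, ∀ F₂ ∈ F, ∀ F₃ ∈ F, F₁ ⊆ F₂ ∪ F₃ ∨ F₂ ⊆ F₁ ∪ F₃ ∨ F₃ ⊆ F₁ ∪ F₂) :
    ∃ W : Finset ι, W.card ≤ 2 * s ∧ ∀ G ∈ F, G ⊆ W := by
  rcases F.eq_empty_or_nonempty with rfl | hF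
  · exact ⟨∅, by simp, by simp⟩
  · obtain ⟨F₁, h1, F₂, h2, hc⟩ := cover2 F hF h
    refine ⟨F₁ ∪ F₂, ?_, hc⟩
    have := card_union_le F₁ F₂
    have := hs _ h1
    have := hs _ h2
    omega

lemma clean_exists {R : A → B → Prop} {s : ℕ} {I : Finset ℕ} {a : ℕ → A} {b : ℕ → B}
    (h6 : NoC6 R) (hE : NoE s R) (hE' : NoE s (flip R)) (h : HG R I a b) :
    ∃ J ⊆ I, Clean R J a b ∧ I.card ≤ J.card + 4 * s := by
  -- bad columns
  let FB : Finset (Finset ℕ) := I.powerset.filter (fun G => ∃ y, ∃ i ∈ I, ∃ j ∈ I, i < j ∧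
    ¬ R (a i) y ∧ R (a j) y ∧ G = I.filter (fun i => ¬ R (a i) y))
  let FA : Finset (Finset ℕ) := I.powerset.filter (fun G => ∃ x, ∃ i ∈ I, ∃ j ∈ I, i < j ∧
    R x (b i) ∧ ¬ R x (b j) ∧ G = I.filter (fun i => ¬ R x (b i)))
  obtain ⟨WB, hWB, hWB'⟩ := union_small (s := s) FB (by
    intro G hG
    obtain ⟨_, y, i, hi, j, hj, hij, h1, h2, rfl⟩ := mem_filter.mp hG
    exact traceB hE' h hi hj hij h1 h2) (by
    intro F₁ h1 F₂ h2 F₃ h3
    obtain ⟨_, y1, -, -, -, -, -, -, -, rfl⟩ := mem_filter.mp h1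
    obtain ⟨_, y2, -, -, -, -, -, -, -, rfl⟩ := mem_filter.mp h2
    obtain ⟨_, y3, -, -, -, -, -, -, -, rfl⟩ := mem_filter.mp h3
    by_contra hcon
    push Not at hcon
    obtain ⟨q1, q2, q3⟩ := hcon
    obtain ⟨i1, p1, p1'⟩ := not_subset.mp q1
    obtain ⟨i2, p2, p2'⟩ := not_subset.mp q2
    obtain ⟨i3, p3, p3'⟩ := not_subset.mp q3
    simp only [mem_union, mem_filter, not_or, not_and, not_not] at p1 p1' p2 p2' p3 p3'
    exact h6 (a i1) (a i2) (a i3) y1 y2 y3 ⟨p1.2, p1'.1 p1.1, p1'.2 p1.1, p2'.1 p2.1, p2.2,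
      p2'.2 p2.1, p3'.1 p3.1, p3'.2 p3.1, p3.2⟩)
  obtain ⟨WA, hWA, hWA'⟩ := union_small (s := s) FA (by
    intro G hG
    obtain ⟨_, y, i, hi, j, hj, hij, h1, h2, rfl⟩ := mem_filter.mp hG
    exact traceA hE h hi hj hij h1 h2) (by
    intro F₁ h1 F₂ h2 F₃ h3
    obtain ⟨_, y1, -, -, -, -, -, -, -, rfl⟩ := mem_filter.mp h1
    obtain ⟨_, y2, -, -, -, -, -, -, -, rfl⟩ := mem_filter.mp h2
    obtain ⟨_, y3, -, -, -, -, -, -, -, rfl⟩ := mem_filter.mp h3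
    by_contra hcon
    push Not at hcon
    obtain ⟨q1, q2, q3⟩ := hcon
    obtain ⟨i1, p1, p1'⟩ := not_subset.mp q1
    obtain ⟨i2, p2, p2'⟩ := not_subset.mp q2
    obtain ⟨i3, p3, p3'⟩ := not_subset.mp q3
    simp only [mem_union, mem_filter, not_or, not_and, not_not] at p1 p1' p2 p2' p3 p3'
    exact h6 y1 y2 y3 (b i1) (b i2) (b i3) ⟨p1.2, p2'.1 p2.1, p3'.1 p3.1, p1'.1 p1.1, p2.2,
      p3'.2 p3.1, p1'.2 p1.1, p2'.2 p2.1, p3.2⟩)
  refine ⟨I \ (WA ∪ WB), sdiff_subset, ⟨h.mono sdiff_subset, ?_, ?_⟩, ?_⟩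
  · intro x i hi j hj hij hx
    by_contra hcon
    obtain ⟨hiI, hiW⟩ := mem_sdiff.mp hi
    obtain ⟨hjI, hjW⟩ := mem_sdiff.mp hj
    have hlt : i < j := lt_of_le_of_ne hij (by rintro rfl; exact hcon hx)
    have hmem : I.filter (fun i => ¬ R x (b i)) ∈ FA := by
      refine mem_filter.mpr ⟨by rw [mem_powerset]; exact filter_subset _ _, x, i, hiI, j, hjI, hlt,
        hx, hcon, rfl⟩
    have := hWA' _ hmem (mem_filter.mpr ⟨hjI, hcon⟩)
    exact hjW (mem_union_left _ this)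
  · intro y i hi j hj hij hy
    by_contra hcon
    obtain ⟨hiI, hiW⟩ := mem_sdiff.mp hi
    obtain ⟨hjI, hjW⟩ := mem_sdiff.mp hj
    have hlt : i < j := lt_of_le_of_ne hij (by rintro rfl; exact hcon hy)
    have hmem : I.filter (fun i => ¬ R (a i) y) ∈ FB := by
      refine mem_filter.mpr ⟨by rw [mem_powerset]; exact filter_subset _ _, y, i, hiI, j, hjI, hlt,
        hcon, hy, rfl⟩
    have := hWB' _ hmem (mem_filter.mpr ⟨hiI, hcon⟩)
    exact hiW (mem_union_right _ this)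
  · have h1 := card_union_le WA WB
    have h2 := le_card_sdiff (WA ∪ WB) I
    omega

end Pool.Agent.Helper36.CWid
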